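import Pool.Agent.Lib_helper92.SGWF.WJG

/-!
# Zeros on the critical line for almost all cusp forms of `GL_n` of prime level `q`
-/

set_option autoImplicit false

namespace Pool.Agent.SGN

/-- Selberg's theorem for almost all cusp forms of `GL_n` of prime level, with the distribution of
the zeros at the scale of the mean spacing. -/
theorem IF_selberg_gaps (n : ℕ) (hn : 2 ≤ n) (K : Set (Fin n → ℂ)) (hK : IsCompact K)
    (hK' : ∀ μ ∈ K, ∀ j, |(μ j).re| < 1 / 2) (ε a b : ℝ) (hε : 0 < ε) (hab : a < b) :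
    ∃ A c : ℝ, 0 < A ∧ 0 < c ∧ ∃ q₀ : ℕ, ∀ (q : ℕ) [NeZero q], q.Prime → q₀ ≤ q →
      (Bad n q K fun Λ => Many c q a b Λ ∧ Gaps A ε q a b Λ).Finite ∧
      ((Bad n q K fun Λ => Many c q a b Λ ∧ Gaps A ε q a b Λ).ncard : ℝ) ≤ ε * (q : ℝ) ^ n :=
  Pool.Agent.SGW.selbergG n hn K hK hK' ε a b hε hab

end Pool.Agent.SGN
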