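import Pool.Agent.Lib_helper45.SGDF.All
import Pool.Agent.Lib_helper24.SGAF.Fin
import Pool.Agent.Lib_helper84.SGCF.All
import Pool.Agent.Lib_helper84.SGN.DefsG
import Pool.Agent.Lib_helper61.BXF.All

set_option autoImplicit false

namespace Pool.Agent.SGW

open Complex MeasureTheory Filter Topology
open Pool.Agent.SGN (Att IsEig IsLambda oddCrit allZer Many Bad Model al vt wtt vr wr Smooth Rough
  gmu D0 invc sqr)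
open Pool.Agent.SGD (Par GCl DD0 SG SH RG AR DFam Mem)
open Pool.Agent.ABS (LData oddZ)
open scoped ENNReal

theorem gmu_class_pr {n : ℕ} (hn : 2 ≤ n) (K : Set (Fin n → ℂ)) (hK : IsCompact K)
    (hK' : ∀ μ ∈ K, ∀ j, |(μ j).re| < 1 / 2) (T Sg : ℝ) :
    ∃ κ c₁ : ℝ, ∃ M : ℝ → ℝ → ℝ, 0 < κ ∧ κ ≤ 1 ∧ 0 < c₁ ∧
      ∀ μ ∈ K, GCl κ T Sg c₁ M (gmu μ) :=
  BX.gmu_class (by omega) K ⟨hK, hK'⟩ T Sg

theorem gmu_laplace_pr {n : ℕ} (hn : 2 ≤ n) (μ : Fin n → ℂ) (hμ : ∀ j, |(μ j).re| < 1 / 2) (s : ℂ)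
    (hs : 1 / 2 ≤ s.re) :
    ∫ v : ℝ, gmu μ v * cexp ((s - 1 / 2) * v) = ∏ j, Gammaℝ (s + μ j) :=
  (BX.gmu_lap (by omega) μ s fun j => by
    have h := (abs_lt.1 (hμ j)).1
    rw [Complex.add_re]
    linarith).2

theorem lambda_exists_pr {n : ℕ} (hn : 2 ≤ n) {q : ℕ} (hq : 2 ≤ q) (μ : Fin n → ℂ)
    (hμ : ∀ j, |(μ j).re| < 1 / 2) (lam : ℕ → ℂ) (h1 : lam 1 = 1)
    (hlam : ∀ m : ℕ, ‖lam m‖ ≤ (m : ℝ) ^ n) {e : ℂ} (he : ‖e‖ = 1)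
    (fe : ∀ v : ℝ, D0 μ lam v = e * (starRingEnd ℂ) (D0 μ lam (-v - Real.log q))) :
    ∃ Λ : ℂ → ℂ, IsLambda q μ lam Λ ∧
      ∀ s : ℂ, Λ s = (q : ℂ) ^ (s / 2) * ∫ v : ℝ, D0 μ lam v * cexp ((s - 1 / 2) * v) :=
  ⟨_, BX.lambda_exists (by omega) μ hμ lam ⟨h1, hlam⟩ q (by omega) e ⟨he, fe⟩, fun _ => rfl⟩

alias gmu_class := gmu_class_pr
alias gmu_laplace := gmu_laplace_pr
alias lambda_exists := lambda_exists_pr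

end Pool.Agent.SGW
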