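import Pool.Agent.Lib_helper45.SGDF.All
import Pool.Agent.Lib_helper24.SGAF.Fin
import Pool.Agent.Lib_helper84.SGCF.All
import Pool.Agent.Lib_helper84.SGN.DefsG

/-!
# Block WA: the quadratic form, abstractly
-/

set_option autoImplicit false

namespace Pool.Agent.SGW

open Complex MeasureTheory Filter Topology
open Pool.Agent.SGN (Att IsEig IsLambda oddCrit allZer Many Bad Model al vt wtt vr wr Smooth Rough
  gmu D0 invc sqr)
open Pool.Agent.SGD (Par GCl DD0 SG SH RG AR DFam Mem)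
open Pool.Agent.ABS (LData oddZ)
open scoped ENNReal

theorem ar_bound_pr {α : Type} [DecidableEq α] (c : α → ℝ) (hc : Function.Injective c) {θ Cρ : ℝ}
    {q : ℕ} (hCρ : 0 ≤ Cρ) (R : Finset α) (e W₀ : α → ℝ) (hW₀ : ∀ b, 0 ≤ W₀ b) (P : α → Prop)
    (h : ∀ r ∈ R, ∃ (l : ℕ) (b : α), P b ∧ c r = l * c b ∧
      ((l = 1 ∧ e r ≤ W₀ b) ∨ (l ∈ RG θ q ∧ e r ≤ Cρ / l * W₀ b))) :
    ∃ Q : Finset α, (∀ b ∈ Q, P b) ∧ ∀ F : ℝ → ℂ,
      ∑ r ∈ R, ‖F (c r)‖ ^ 2 * e r ≤
        AR θ q Cρ (Q.image c) (Function.extend c W₀ 0) F := by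
  classical
  rcases R.eq_empty_or_nonempty with hR | ⟨r₀, hr₀⟩
  · subst hR
    exact ⟨∅, by simp, fun F => by simp [AR]⟩
  have : Nonempty α := ⟨r₀⟩
  choose! l b hP hcl hcase using h
  refine ⟨R.image b, ?_, ?_⟩
  · intro x hx
    obtain ⟨r, hr, rfl⟩ := Finset.mem_image.mp hx
    exact hP r hr
  intro F
  set Q := R.image b with hQ
  set T : ℕ × α → ℝ := fun x => if x.1 = 1 then ‖F (c x.2)‖ ^ 2 * W₀ x.2 else
    Cρ * (1 / (x.1 : ℝ) * (‖F (x.1 * c x.2)‖ ^ 2 * W₀ x.2)) with hT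
  have hT0 : ∀ x, 0 ≤ T x := by
    intro x
    rw [hT]; dsimp only
    have := hW₀ x.2
    split_ifs <;> positivity
  have hRG : ∀ l ∈ RG θ q, l ≠ 1 := by
    intro l hl h1
    unfold RG at hl
    rw [Finset.mem_filter, Finset.mem_Icc] at hl
    omega
  have hterm : ∀ r ∈ R, ‖F (c r)‖ ^ 2 * e r ≤ T (l r, b r) := by
    intro r hr
    rcases hcase r hr with ⟨h1, h2⟩ | ⟨h1, h2⟩
    · rw [hT]; dsimp only
      rw [if_pos h1]
      have h3 : c r = c (b r) := by rw [hcl r hr, h1]; push_cast; ring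
      rw [h3]
      exact mul_le_mul_of_nonneg_left h2 (by positivity)
    · rw [hT]; dsimp only
      rw [if_neg (hRG _ h1), hcl r hr]
      calc ‖F (l r * c (b r))‖ ^ 2 * e r
          ≤ ‖F (l r * c (b r))‖ ^ 2 * (Cρ / l r * W₀ (b r)) :=
            mul_le_mul_of_nonneg_left h2 (by positivity)
        _ = _ := by ring
  have hinj : Set.InjOn (fun r => (l r, b r)) (R : Set α) := by
    intro r hr r' hr' hrr
    simp only [Prod.mk.injEq] at hrr
    apply hc
    rw [hcl r hr, hcl r' hr', hrr.1, hrr.2]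
  have h1RG : (1 : ℕ) ∉ RG θ q := fun h => hRG 1 h rfl
  calc ∑ r ∈ R, ‖F (c r)‖ ^ 2 * e r ≤ ∑ r ∈ R, T (l r, b r) := Finset.sum_le_sum hterm
    _ = ∑ x ∈ R.image (fun r => (l r, b r)), T x := by rw [Finset.sum_image hinj]
    _ ≤ ∑ x ∈ (insert 1 (RG θ q)) ×ˢ Q, T x := by
        apply Finset.sum_le_sum_of_subset_of_nonneg _ (fun x _ _ => hT0 x)
        intro x hx
        obtain ⟨r, hr, rfl⟩ := Finset.mem_image.mp hx
        rw [Finset.mem_product]
        refine ⟨?_, Finset.mem_image_of_mem b hr⟩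
        rcases hcase r hr with ⟨h1, _⟩ | ⟨h1, _⟩
        · exact Finset.mem_insert.mpr (Or.inl h1)
        · exact Finset.mem_insert.mpr (Or.inr h1)
    _ = ∑ x ∈ Q, ‖F (c x)‖ ^ 2 * W₀ x +
        Cρ * ∑ l ∈ RG θ q, 1 / (l : ℝ) * ∑ x ∈ Q, ‖F (l * c x)‖ ^ 2 * W₀ x := by
        rw [Finset.sum_product, Finset.sum_insert h1RG]
        refine congrArg₂ (· + ·) ?_ ?_
        · apply Finset.sum_congr rfl
          intro x _
          rw [hT]; simp
        · refine Eq.trans ?_ (Finset.mul_sum _ _ _).symm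
          apply Finset.sum_congr rfl
          intro l hl
          rw [Finset.mul_sum, Finset.mul_sum]
          apply Finset.sum_congr rfl
          intro x _
          rw [hT]; dsimp only
          rw [if_neg (hRG l hl)]
    _ = AR θ q Cρ (Q.image c) (Function.extend c W₀ 0) F := by
        unfold AR
        rw [Finset.sum_image (fun a _ a' _ h => hc h)]
        congr 1
        · apply Finset.sum_congr rfl
          intro x _
          rw [hc.extend_apply]
        · congr 1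
          apply Finset.sum_congr rfl
          intro l _
          congr 1
          rw [Finset.sum_image (fun a _ a' _ h => hc h)]
          apply Finset.sum_congr rfl
          intro x _
          rw [hc.extend_apply]

theorem sum_ext_pr {α : Type} [DecidableEq α] (c : α → ℝ) (hc : Function.Injective c)
    (Q : Finset α) (W₀ : α → ℝ) (k : ℝ → ℝ) :
    ∑ x ∈ Q.image c, k x * Function.extend c W₀ 0 x = ∑ b ∈ Q, k (c b) * W₀ b := by
  rw [Finset.sum_image (fun a _ a' _ h => hc h)]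
  apply Finset.sum_congr rfl
  intro x _
  rw [hc.extend_apply]


alias ar_bound := ar_bound_pr
alias sum_ext := sum_ext_pr

end Pool.Agent.SGW
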