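import Pool.Agent.Lib_helper45.SGDF.All
import Pool.Agent.Lib_helper24.SGAF.Fin
import Pool.Agent.Lib_helper84.SGCF.All
import Pool.Agent.Lib_helper84.SGN.DefsG

/-! SGW, block WB: `SG` as a sum over rational numbers. -/

set_option autoImplicit false

namespace Pool.Agent.SGW

open Complex MeasureTheory Filter Topology
open Pool.Agent.SGN (Att IsEig IsLambda oddCrit allZer Many Bad Model al vt wtt vr wr Smooth Rough
  gmu D0 invc sqr)
open Pool.Agent.SGD (Par GCl DD0 SG SH RG AR DFam Mem)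
open Pool.Agent.ABS (LData oddZ)
open scoped ENNReal

theorem wb_mem {R : ℝ} {k k' m : ℕ} (hk : 1 ≤ k) (hk' : 1 ≤ k')
    (hm : m ∈ Finset.Icc 1 ⌊R * k' / k⌋₊) :
    0 < ((m : ℚ) * k / k') ∧ ((((m : ℚ) * k / k' : ℚ)) : ℝ) ≤ R := by
  rw [Finset.mem_Icc] at hm
  have hm1 : 1 ≤ m := hm.1
  constructor
  · have h1 : (0 : ℚ) < m := by exact_mod_cast hm1
    have h2 : (0 : ℚ) < k := by exact_mod_cast hk
    have h3 : (0 : ℚ) < k' := by exact_mod_cast hk'
    positivity
  · have h2 : (0 : ℝ) < k := by exact_mod_cast hk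
    have h3 : (0 : ℝ) < k' := by exact_mod_cast hk'
    have h4 : (m : ℝ) ≤ R * k' / k := by
      have h5 : m ≤ ⌊R * k' / k⌋₊ := hm.2
      exact (Nat.le_floor_iff' (by omega)).1 h5
    rw [le_div_iff₀ h2] at h4
    push_cast
    rw [div_le_iff₀ h3]
    exact h4

theorem sg_eq_pr (S : Finset ℕ) (hS : ∀ k ∈ S, 1 ≤ k) {R : ℝ} (hR : 0 ≤ R) :
    ∃ T : Finset ℚ, (∀ r ∈ T, 0 < r ∧ (r : ℝ) ≤ R ∧ ∃ k ∈ S, r.den ∣ k) ∧
      ∀ (lam : ℕ → ℂ) (F : ℝ → ℂ),
        SG S R lam (al lam) F = ∑ r ∈ T, F r * wtt lam S r := by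
  classical
  obtain ⟨T, hT⟩ : ∃ T : Finset ℚ, T = (S ×ˢ S).biUnion fun x =>
      (Finset.Icc 1 ⌊R * x.2 / x.1⌋₊).image fun m : ℕ => ((m : ℚ) * x.1 / x.2 : ℚ) := ⟨_, rfl⟩
  have hmem : ∀ r ∈ T, ∃ k ∈ S, ∃ k' ∈ S, ∃ m ∈ Finset.Icc 1 ⌊R * k' / k⌋₊,
      r = (m : ℚ) * k / k' := by
    intro r hr
    rw [hT, Finset.mem_biUnion] at hr
    obtain ⟨⟨k, k'⟩, hkk, hr⟩ := hr
    rw [Finset.mem_product] at hkk
    rw [Finset.mem_image] at hr
    obtain ⟨m, hm, hr⟩ := hr
    exact ⟨k, hkk.1, k', hkk.2, m, hm, hr.symm⟩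
  have hmem' : ∀ k ∈ S, ∀ k' ∈ S, ∀ m ∈ Finset.Icc 1 ⌊R * k' / k⌋₊,
      (m : ℚ) * k / k' ∈ T := by
    intro k hk k' hk' m hm
    rw [hT, Finset.mem_biUnion]
    exact ⟨(k, k'), Finset.mem_product.2 ⟨hk, hk'⟩, Finset.mem_image.2 ⟨m, hm, rfl⟩⟩
  have hpos : ∀ r ∈ T, 0 < r ∧ (r : ℝ) ≤ R := by
    intro r hr
    obtain ⟨k, hk, k', hk', m, hm, rfl⟩ := hmem r hr
    exact wb_mem (hS k hk) (hS k' hk') hm
  refine ⟨T, fun r hr => ⟨(hpos r hr).1, (hpos r hr).2, ?_⟩, fun lam F => ?_⟩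
  · obtain ⟨k, hk, k', hk', m, hm, rfl⟩ := hmem r hr
    refine ⟨k', hk', ?_⟩
    have h1 := Rat.den_dvd ((m * k : ℕ) : ℤ) ((k' : ℕ) : ℤ)
    have h2 : (((m * k : ℕ) : ℤ) : ℚ) / (((k' : ℕ) : ℤ) : ℚ) = (m : ℚ) * k / k' := by
      push_cast
      ring
    rw [Rat.divInt_eq_div, h2] at h1
    exact_mod_cast h1
  · -- the key identity
    have key : ∀ k ∈ S, ∀ k' ∈ S, ∑ m ∈ Finset.Icc 1 ⌊R * k' / k⌋₊,
        F ((m : ℝ) * k / k') * (lam m * al lam k * starRingEnd ℂ (al lam k')) *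
          ((((m : ℝ) * k * k') ^ (-(1 / 2) : ℝ) : ℝ) : ℂ) =
        ∑ r ∈ T, F r * (if (r * k' / k).den = 1 then
          lam (r * k' / k).num.natAbs * al lam k * (starRingEnd ℂ) (al lam k') *
          (((((r * k' / k).num.natAbs : ℝ) * k * k') ^ (-(1 / 2) : ℝ) : ℝ) : ℂ) else 0) := by
      intro k hk k' hk'
      have hk1 := hS k hk
      have hk1' := hS k' hk'
      have h2 : (0 : ℚ) < k := by exact_mod_cast hk1
      have h3 : (0 : ℚ) < k' := by exact_mod_cast hk1'
      have h2r : (0 : ℝ) < k := by exact_mod_cast hk1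
      have h3r : (0 : ℝ) < k' := by exact_mod_cast hk1'
      have hback : ∀ m : ℕ, (m : ℚ) * k / k' * k' / k = m := by
        intro m
        field_simp
      have hnum : ∀ r : ℚ, 0 < r → (r * k' / k).den = 1 →
          (((r * k' / k).num.natAbs : ℕ) : ℚ) = r * k' / k := by
        intro r hr hd
        have h4 : (((r * k' / k).num : ℤ) : ℚ) = r * k' / k := by
          have h5 := Rat.num_div_den (r * k' / k)
          rw [hd] at h5
          simpa using h5
        have h6 : 0 ≤ (r * k' / k).num := Rat.num_nonneg.2 (by positivity)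
        have h7 : (((r * k' / k).num.natAbs : ℕ) : ℤ) = (r * k' / k).num := Int.natAbs_of_nonneg h6
        calc (((r * k' / k).num.natAbs : ℕ) : ℚ) = ((((r * k' / k).num.natAbs : ℕ) : ℤ) : ℚ) :=
              (Int.cast_natCast _).symm
          _ = (((r * k' / k).num : ℤ) : ℚ) := by rw [h7]
          _ = r * k' / k := h4
      simp only [mul_ite, mul_zero]
      rw [← Finset.sum_filter]
      refine Finset.sum_nbij' (fun m : ℕ => (m : ℚ) * k / k')
        (fun r : ℚ => (r * k' / k).num.natAbs) ?_ ?_ ?_ ?_ ?_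
      · intro m hm
        rw [Finset.mem_filter]
        refine ⟨hmem' k hk k' hk' m hm, ?_⟩
        simp only [hback]
        exact Rat.den_natCast m
      · intro r hr
        rw [Finset.mem_filter] at hr
        have h4 := hnum r (hpos r hr.1).1 hr.2
        rw [Finset.mem_Icc]
        have hr0 := (hpos r hr.1).1
        have hrR := (hpos r hr.1).2
        constructor
        · have h5 : (0 : ℚ) < (((r * k' / k).num.natAbs : ℕ) : ℚ) := by
            rw [h4]; positivity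
          have h6 : 0 < (r * k' / k).num.natAbs := by exact_mod_cast h5
          exact h6
        · apply Nat.le_floor
          have h5 : ((((r * k' / k).num.natAbs : ℕ) : ℚ) : ℝ) = (r : ℝ) * k' / k := by
            rw [h4]; push_cast; ring
          rw [Rat.cast_natCast] at h5
          rw [h5]
          gcongr
      · intro m hm
        simp only [hback]
        simp
      · intro r hr
        rw [Finset.mem_filter] at hr
        have h4 := hnum r (hpos r hr.1).1 hr.2
        simp only [h4]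
        field_simp
      · intro m hm
        simp only [hback]
        have h5 : (((m : ℚ) * k / k' : ℚ) : ℝ) = (m : ℝ) * k / k' := by push_cast; ring
        rw [h5]
        simp only [Rat.num_natCast, Int.natAbs_natCast]
        ring
    unfold SG
    calc _ = ∑ k ∈ S, ∑ k' ∈ S, ∑ r ∈ T, F r * (if (r * k' / k).den = 1 then
          lam (r * k' / k).num.natAbs * al lam k * (starRingEnd ℂ) (al lam k') *
          (((((r * k' / k).num.natAbs : ℝ) * k * k') ^ (-(1 / 2) : ℝ) : ℝ) : ℂ) else 0) :=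
          Finset.sum_congr rfl fun k hk => Finset.sum_congr rfl fun k' hk' => key k hk k' hk'
      _ = _ := by
          rw [Finset.sum_congr rfl fun k _ => Finset.sum_comm, Finset.sum_comm]
          simp only [wtt, Finset.mul_sum]


alias sg_eq := sg_eq_pr

end Pool.Agent.SGW
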