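import Pool.Agent.Lib_helper45.SGDF.All
import Pool.Agent.Lib_helper24.SGAF.Fin
import Pool.Agent.Lib_helper84.SGCF.All
import Pool.Agent.Lib_helper84.SGN.DefsG

set_option autoImplicit false

namespace Pool.Agent.SGW

open Complex MeasureTheory Filter Topology
open Pool.Agent.SGN (Att IsEig IsLambda oddCrit allZer Many Bad Model al vt wtt vr wr Smooth Rough
  gmu D0 invc sqr)
open Pool.Agent.SGD (Par GCl DD0 SG SH RG AR DFam Mem)
open Pool.Agent.ABS (LData oddZ)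
open scoped ENNReal

theorem wc_sum (d : ℕ) (hd : 1 ≤ d) (N : ℕ) (g : ℕ → ℕ → ℂ) :
    ∑ m ∈ Finset.Icc 1 (N / d), g (m * d) m =
      ∑ r ∈ Finset.Icc 1 N, if d ∣ r then g r (r / d) else 0 := by
  rw [← Finset.sum_filter]
  refine Finset.sum_nbij' (fun m => m * d) (fun r => r / d) ?_ ?_ ?_ ?_ ?_
  · intro m hm
    rw [Finset.mem_Icc] at hm
    rw [Finset.mem_filter, Finset.mem_Icc]
    refine ⟨⟨Nat.mul_pos hm.1 hd, ?_⟩, Dvd.intro_left m rfl⟩
    exact (Nat.le_div_iff_mul_le hd).1 hm.2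
  · intro r hr
    rw [Finset.mem_filter, Finset.mem_Icc] at hr
    rw [Finset.mem_Icc]
    exact ⟨Nat.div_pos (Nat.le_of_dvd hr.1.1 hr.2) hd, Nat.div_le_div_right hr.1.2⟩
  · intro m _
    exact Nat.mul_div_cancel m hd
  · intro r hr
    rw [Finset.mem_filter] at hr
    exact Nat.div_mul_cancel hr.2
  · intro m _
    show g (m * d) m = g (m * d) (m * d / d)
    rw [Nat.mul_div_cancel m hd]

theorem sh_eq_pr (S : Finset ℕ) (hS : ∀ k ∈ S, 1 ≤ k) {R : ℝ} (hR : 0 ≤ R) (lam : ℕ → ℂ)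
    (F : ℝ → ℂ) :
    SH S R lam (al lam) F = ∑ r ∈ Finset.Icc 1 ⌊R⌋₊, F r * vt lam S r := by
  unfold SH vt
  have h1 : ∀ r ∈ Finset.Icc 1 ⌊R⌋₊, F r * ((((r : ℝ) ^ (-(1 / 2) : ℝ) : ℝ) : ℂ) *
      ∑ k ∈ S, ∑ k' ∈ S, if k * k' ∣ r then lam (r / (k * k')) * al lam k * al lam k' else 0) =
      ∑ k ∈ S, ∑ k' ∈ S, if k * k' ∣ r then F r * (((r : ℝ) ^ (-(1 / 2) : ℝ) : ℝ) : ℂ) *
        (lam (r / (k * k')) * al lam k * al lam k') else 0 := by
    intro r _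
    rw [← mul_assoc, Finset.mul_sum]
    refine Finset.sum_congr rfl fun k _ => ?_
    rw [Finset.mul_sum]
    refine Finset.sum_congr rfl fun k' _ => ?_
    rw [mul_ite, mul_zero]
  rw [Finset.sum_congr rfl h1]
  symm
  rw [Finset.sum_comm]
  refine Finset.sum_congr rfl fun k hk => ?_
  rw [Finset.sum_comm]
  refine Finset.sum_congr rfl fun k' hk' => ?_
  have hd : 1 ≤ k * k' := Nat.mul_pos (hS k hk) (hS k' hk')
  have h2 := wc_sum (k * k') hd ⌊R⌋₊ fun r m =>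
    F r * (((r : ℝ) ^ (-(1 / 2) : ℝ) : ℝ) : ℂ) * (lam m * al lam k * al lam k')
  have h3 : ⌊R / ((k : ℝ) * k')⌋₊ = ⌊R⌋₊ / (k * k') := by
    rw [← Nat.cast_mul, Nat.floor_div_natCast]
  rw [h3]
  refine h2.symm.trans ?_
  refine Finset.sum_congr rfl fun m _ => ?_
  have h4 : ((m * (k * k') : ℕ) : ℝ) = (m : ℝ) * k * k' := by push_cast; ring
  rw [h4]
  ring

alias sh_eq := sh_eq_pr

end Pool.Agent.SGW
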