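import Pool.Agent.Lib_helper45.SGDF.All
import Pool.Agent.Lib_helper24.SGAF.Fin
import Pool.Agent.Lib_helper84.SGCF.All
import Pool.Agent.Lib_helper84.SGN.DefsG

/-!
# Block WD1: the model is bounded and measurable
-/

set_option autoImplicit false

namespace Pool.Agent.SGW

open Complex MeasureTheory Filter Topology
open Pool.Agent.SGN (Att IsEig IsLambda oddCrit allZer Many Bad Model al vt wtt vr wr Smooth Rough
  gmu D0 invc sqr)
open Pool.Agent.SGD (Par GCl DD0 SG SH RG AR DFam Mem)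
open Pool.Agent.ABS (LData oddZ)
open scoped ENNReal

theorem wd1_choose {n j p : ℕ} (hn : 1 ≤ n) (hj : 1 ≤ j) (hp : 2 ≤ p) :
    Nat.choose (j + n - 1) j ≤ (p ^ j) ^ n := by
  have h1 : j + n - 1 ≤ j * n := by
    obtain ⟨a, rfl⟩ : ∃ a, j = a + 1 := ⟨j - 1, by omega⟩
    obtain ⟨b, rfl⟩ : ∃ b, n = b + 1 := ⟨n - 1, by omega⟩
    have e : (a + 1) * (b + 1) = a * b + (a + b + 1) := by ring
    rw [e]
    omega
  calc Nat.choose (j + n - 1) j ≤ 2 ^ (j + n - 1) := Nat.choose_le_two_pow _ _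
    _ ≤ 2 ^ (j * n) := Nat.pow_le_pow_right (by norm_num) h1
    _ ≤ p ^ (j * n) := Nat.pow_le_pow_left hp _
    _ = (p ^ j) ^ n := pow_mul _ _ _

theorem X_le_pr {n : ℕ} (hn : 1 ≤ n) (M : Model n) (m : ℕ) (w : M.Om) :
    ‖M.X m w‖ ≤ (m : ℝ) ^ n := by
  induction m using Nat.recOnPosPrimePosCoprime with
  | prime_pow p j hp hj =>
    refine (M.bdd p hp j w).trans ?_
    exact_mod_cast wd1_choose hn hj hp.two_le
  | zero =>
    rw [M.zero, norm_zero]
    positivity
  | one =>
    rw [M.one, norm_one]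
    simp
  | coprime a b ha hb hab h1 h2 =>
    rw [M.mul a b hab, norm_mul, Nat.cast_mul, mul_pow]
    exact mul_le_mul h1 h2 (norm_nonneg _) (by positivity)

section meas

variable {Ω : Type} [MeasurableSpace Ω]

theorem wd1_invc {a : Ω → ℕ → ℂ} (h : ∀ i, Measurable fun w => a w i) (j : ℕ) :
    Measurable fun w => invc (a w) j := by
  induction j using Nat.strong_induction_on with
  | _ j ih =>
    cases j with
    | zero =>
      have e : (fun w => invc (a w) 0) = fun _ => (1 : ℂ) := by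
        funext w
        rw [invc]
      rw [e]
      exact measurable_const
    | succ j =>
      have e : (fun w => invc (a w) (j + 1)) =
          fun w => -∑ i : Fin (j + 1), a w (i + 1) * invc (a w) (j - i) := by
        funext w
        rw [invc]
      rw [e]
      refine Measurable.neg (Finset.measurable_sum _ fun i _ => ?_)
      exact (h _).mul (ih _ (by omega))

theorem wd1_sqr {a : Ω → ℕ → ℂ} (h : ∀ i, Measurable fun w => a w i) (j : ℕ) :
    Measurable fun w => sqr (a w) j := by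
  induction j using Nat.strong_induction_on with
  | _ j ih =>
    cases j with
    | zero =>
      have e : (fun w => sqr (a w) 0) = fun _ => (1 : ℂ) := by
        funext w
        rw [sqr]
      rw [e]
      exact measurable_const
    | succ j =>
      have e : (fun w => sqr (a w) (j + 1)) =
          fun w => (a w (j + 1) - ∑ i : Fin j, sqr (a w) (i + 1) * sqr (a w) (j - i)) / 2 := by
        funext w
        rw [sqr]
      rw [e]
      refine Measurable.div_const (Measurable.sub (h _) (Finset.measurable_sum _ fun i _ => ?_)) _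
      have hi := i.2
      exact (ih _ (by omega)).mul (ih _ (by omega))

end meas

theorem al_meas_pr {n : ℕ} (M : Model n) (k : ℕ) :
    @Measurable M.Om ℂ M.ms _ (fun w => al (fun m => M.X m w) k) := by
  let _ := M.ms
  have e : (fun w => al (fun m => M.X m w) k) = fun w => ∏ p ∈ k.factorization.support,
      sqr (invc (fun i => M.X (p ^ i) w)) (k.factorization p) := by
    funext w
    rfl
  rw [e]
  refine Finset.measurable_prod _ fun p _ => ?_
  exact wd1_sqr (a := fun w => invc (fun i => M.X (p ^ i) w))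
    (fun i => wd1_invc (a := fun w i => M.X (p ^ i) w) (fun i => M.meas _) i) _

section bm

variable {Ω : Type} [MeasurableSpace Ω]

/-- bounded and measurable -/
def wd1_BM (f : Ω → ℂ) : Prop := Measurable f ∧ ∃ C : ℝ, ∀ w, ‖f w‖ ≤ C

theorem wd1_const (c : ℂ) : wd1_BM (fun _ : Ω => c) := ⟨measurable_const, ‖c‖, fun _ => le_rfl⟩

theorem wd1_mul {f g : Ω → ℂ} (hf : wd1_BM f) (hg : wd1_BM g) : wd1_BM fun w => f w * g w := by
  obtain ⟨h1, C, h2⟩ := hf
  obtain ⟨h3, D, h4⟩ := hg
  refine ⟨h1.mul h3, max C 0 * max D 0, fun w => ?_⟩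
  rw [norm_mul]
  exact mul_le_mul ((h2 w).trans (le_max_left _ _)) ((h4 w).trans (le_max_left _ _))
    (norm_nonneg _) (le_max_right _ _)

theorem wd1_add {f g : Ω → ℂ} (hf : wd1_BM f) (hg : wd1_BM g) : wd1_BM fun w => f w + g w := by
  obtain ⟨h1, C, h2⟩ := hf
  obtain ⟨h3, D, h4⟩ := hg
  exact ⟨h1.add h3, C + D, fun w => (norm_add_le _ _).trans (add_le_add (h2 w) (h4 w))⟩

theorem wd1_conj {f : Ω → ℂ} (hf : wd1_BM f) : wd1_BM fun w => (starRingEnd ℂ) (f w) := by
  obtain ⟨h1, C, h2⟩ := hf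
  refine ⟨Complex.continuous_conj.measurable.comp h1, C, fun w => ?_⟩
  rw [RCLike.norm_conj]
  exact h2 w

theorem wd1_sum {J : Type} (s : Finset J) {f : J → Ω → ℂ} (h : ∀ j ∈ s, wd1_BM (f j)) :
    wd1_BM fun w => ∑ j ∈ s, f j w := by
  classical
  induction s using Finset.induction_on with
  | empty =>
    simp only [Finset.sum_empty]
    exact wd1_const 0
  | insert a s ha ih =>
    simp only [Finset.sum_insert ha]
    exact wd1_add (h a (Finset.mem_insert_self _ _))
      (ih fun j hj => h j (Finset.mem_insert_of_mem hj))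

theorem wd1_ite {c : Prop} {inst : Decidable c} {f : Ω → ℂ} (hf : wd1_BM f) :
    wd1_BM fun w => @ite _ c inst (f w) 0 := by
  by_cases hc : c
  · simp only [hc, if_true]; exact hf
  · simp only [hc, if_false]; exact wd1_const 0

end bm

theorem wr_vr_bdd_pr {n : ℕ} (hn : 1 ≤ n) (M : Model n) (S : Finset ℕ) (hS : ∀ k ∈ S, 1 ≤ k)
    (y : ℝ) :
    (∀ r : ℕ, @Measurable M.Om ℂ M.ms _ (fun w => vr (fun m => M.X m w) S y r) ∧
      ∃ C : ℝ, ∀ w, ‖vr (fun m => M.X m w) S y r‖ ≤ C) ∧
    ∀ r : ℚ, @Measurable M.Om ℂ M.ms _ (fun w => wr (fun m => M.X m w) S y r) ∧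
      ∃ C : ℝ, ∀ w, ‖wr (fun m => M.X m w) S y r‖ ≤ C := by
  let _ := M.ms
  obtain ⟨c, hc, hal⟩ := Pool.Agent.SGN.IF_C5 n hn
  have hX : ∀ m : ℕ, wd1_BM (fun w => M.X m w) := fun m =>
    ⟨M.meas m, (m : ℝ) ^ n, fun w => X_le_pr hn M m w⟩
  have hA : ∀ k ∈ S, wd1_BM (fun w => al (fun m => M.X m w) k) := fun k hk =>
    ⟨al_meas_pr M k, (k : ℝ) ^ c, fun w => hal _ (fun m => X_le_pr hn M m w) k (hS k hk)⟩
  constructor
  · intro r
    show wd1_BM (fun w => vr (fun m => M.X m w) S y r)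
    unfold vr
    refine wd1_mul (wd1_const _) (wd1_sum _ fun k hk => wd1_sum _ fun k' hk' => wd1_ite ?_)
    exact wd1_mul (wd1_mul (hX _) (hA k hk)) (hA k' hk')
  · intro r
    show wd1_BM (fun w => wr (fun m => M.X m w) S y r)
    unfold wr
    refine wd1_sum _ fun k hk => wd1_sum _ fun k' hk' => wd1_ite ?_
    exact wd1_mul (wd1_mul (wd1_mul (hX _) (hA k hk)) (wd1_conj (hA k' hk'))) (wd1_const _)

alias X_le := X_le_pr
alias al_meas := al_meas_pr
alias wr_vr_bdd := wr_vr_bdd_pr

end Pool.Agent.SGW
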