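import Pool.Agent.Lib_helper45.SGDF.All
import Pool.Agent.Lib_helper24.SGAF.Fin
import Pool.Agent.Lib_helper84.SGCF.All
import Pool.Agent.Lib_helper84.SGN.DefsG
import Pool.Agent.Lib_helper92.SGWF.WD1

/-!
# SGW: block WD2 (second moments at `l r`, `l` rough)
-/

set_option autoImplicit false

namespace Pool.Agent.SGW

open Complex MeasureTheory Filter Topology
open Pool.Agent.SGN (Att IsEig IsLambda oddCrit allZer Many Bad Model al vt wtt vr wr Smooth Rough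
  gmu D0 invc sqr)
open Pool.Agent.SGD (Par GCl DD0 SG SH RG AR DFam Mem)
open Pool.Agent.ABS (LData oddZ)
open scoped ENNReal

theorem EE_bound_pr {n : ℕ} (M : Model n) {f g : M.Om → ℂ} {B : ℝ} (hB : 0 ≤ B)
    (hg : @Measurable M.Om ℂ M.ms _ g) (hg' : ∃ C : ℝ, ∀ w, ‖g w‖ ≤ C)
    (h : ∀ w, ‖f w‖ ≤ B * ‖g w‖) :
    M.EE (fun w => ‖f w‖ ^ 2) ≤ B ^ 2 * M.EE (fun w => ‖g w‖ ^ 2) := by
  let _ := M.ms
  have _ := M.pr
  obtain ⟨C, hC⟩ := hg'
  unfold Model.EE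
  rw [← integral_const_mul]
  have hi : Integrable (fun w => ‖g w‖ ^ 2) M.P := by
    refine Integrable.of_bound (C := C ^ 2) ?_ (Eventually.of_forall fun w => ?_)
    · exact (hg.norm.pow_const 2).aestronglyMeasurable
    · rw [Real.norm_eq_abs, abs_pow, abs_of_nonneg (norm_nonneg _)]
      exact pow_le_pow_left₀ (norm_nonneg _) (hC w) 2
  refine integral_mono_of_nonneg (Eventually.of_forall fun w => by positivity)
    (hi.const_mul _) (Eventually.of_forall fun w => ?_)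
  have := pow_le_pow_left₀ (norm_nonneg _) (h w) 2
  simpa [mul_pow] using this

/-- the square of the factor -/
theorem wd2_sq {n l : ℕ} (hn : 1 ≤ n) (hl : 1 ≤ l) (a : ℝ) :
    ((n : ℝ) ^ a * (l : ℝ) ^ (-(1 / 2) : ℝ)) ^ 2 = (n : ℝ) ^ (2 * a) / l := by
  have h1 : (0 : ℝ) ≤ n := by positivity
  have h2 : (0 : ℝ) ≤ l := by positivity
  have e1 : ((n : ℝ) ^ a) ^ 2 = (n : ℝ) ^ (2 * a) := by
    rw [← Real.rpow_natCast, ← Real.rpow_mul h1]
    congr 1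
    push_cast; ring
  have e2 : ((l : ℝ) ^ (-(1 / 2) : ℝ)) ^ 2 = (l : ℝ)⁻¹ := by
    rw [← Real.rpow_natCast, ← Real.rpow_mul h2, ← Real.rpow_neg_one]
    congr 1
    push_cast; norm_num
  rw [mul_pow, e1, e2, div_eq_mul_inv]

theorem vt_EE_pr {n : ℕ} (hn : 1 ≤ n) (M : Model n) (S : Finset ℕ) {y : ℝ} (hy : 1 < y)
    (hS : ∀ k ∈ S, 1 ≤ k ∧ Smooth y k) (l r : ℕ) (hl : 1 ≤ l) (hl' : Rough y l) (hr : 1 ≤ r)
    (hr' : Smooth y r) :
    M.EE (fun w => ‖vt (fun m => M.X m w) S (l * r)‖ ^ 2) ≤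
      (n : ℝ) ^ (2 * (Real.log l / Real.log y)) / l *
        M.EE (fun w => ‖vr (fun m => M.X m w) S y r‖ ^ 2) := by
  have hm := (wr_vr_bdd hn M S (fun k hk => (hS k hk).1) y).1 r
  rw [← wd2_sq hn hl]
  refine EE_bound_pr M (by positivity) hm.1 hm.2 fun w => ?_
  obtain ⟨h1, -, -, h4⟩ := Pool.Agent.SGN.IF_C6 n hn M S y hS w
  rw [h1 l r hl hl' hr hr', norm_mul, norm_mul]
  refine mul_le_mul_of_nonneg_right ?_ (norm_nonneg _)
  refine mul_le_mul (h4 l hl hl' hy) ?_ (norm_nonneg _) (by positivity)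
  rw [Complex.norm_real, Real.norm_of_nonneg (by positivity)]

theorem wtt_EE_pr {n : ℕ} (hn : 1 ≤ n) (M : Model n) (S : Finset ℕ) {y : ℝ} (hy : 1 < y)
    (hS : ∀ k ∈ S, 1 ≤ k ∧ Smooth y k) (l : ℕ) (r : ℚ) (hl : 1 ≤ l) (hl' : Rough y l) (hr : 0 < r)
    (hr' : Smooth y r.num.natAbs) (hr'' : Smooth y r.den) :
    M.EE (fun w => ‖wtt (fun m => M.X m w) S (l * r)‖ ^ 2) ≤
      (n : ℝ) ^ (2 * (Real.log l / Real.log y)) / l *
        M.EE (fun w => ‖wr (fun m => M.X m w) S y r‖ ^ 2) := by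
  have hm := (wr_vr_bdd hn M S (fun k hk => (hS k hk).1) y).2 r
  rw [← wd2_sq hn hl]
  refine EE_bound_pr M (by positivity) hm.1 hm.2 fun w => ?_
  obtain ⟨-, h2, -, h4⟩ := Pool.Agent.SGN.IF_C6 n hn M S y hS w
  rw [h2 l r hl hl' hr hr' hr'', norm_mul, norm_mul]
  refine mul_le_mul_of_nonneg_right ?_ (norm_nonneg _)
  refine mul_le_mul (h4 l hl hl' hy) ?_ (norm_nonneg _) (by positivity)
  rw [Complex.norm_real, Real.norm_of_nonneg (by positivity)]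


alias EE_bound := EE_bound_pr
alias vt_EE := vt_EE_pr
alias wtt_EE := wtt_EE_pr

end Pool.Agent.SGW
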