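import Pool.Agent.Lib_helper45.SGDF.All
import Pool.Agent.Lib_helper24.SGAF.Fin
import Pool.Agent.Lib_helper84.SGCF.All
import Pool.Agent.Lib_helper84.SGN.DefsG

/-!
# SGW, block WE: rough and smooth part
-/

set_option autoImplicit false

namespace Pool.Agent.SGW

open Complex MeasureTheory Filter Topology
open Pool.Agent.SGN (Att IsEig IsLambda oddCrit allZer Many Bad Model al vt wtt vr wr Smooth Rough
  gmu D0 invc sqr)
open Pool.Agent.SGD (Par GCl DD0 SG SH RG AR DFam Mem)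
open Pool.Agent.ABS (LData oddZ)
open scoped ENNReal

theorem we_rough_mul {y : ℝ} {p l : ℕ} (hp : p.Prime) (h : y < (p : ℝ)) (hl : Rough y l) :
    Rough y (p * l) := by
  intro s hs hd
  rcases hs.dvd_mul.1 hd with h1 | h1
  · rw [(Nat.prime_dvd_prime_iff_eq hs hp).1 h1]
    exact h
  · exact hl s hs h1

theorem we_smooth_mul {y : ℝ} {p l : ℕ} (hp : p.Prime) (h : (p : ℝ) ≤ y) (hl : Smooth y l) :
    Smooth y (p * l) := by
  intro s hs hd
  rcases hs.dvd_mul.1 hd with h1 | h1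
  · rw [(Nat.prime_dvd_prime_iff_eq hs hp).1 h1]
    exact h
  · exact hl s hs h1

theorem rs_split_pr (y : ℝ) (m : ℕ) (hm : 1 ≤ m) :
    ∃ l r : ℕ, 1 ≤ l ∧ 1 ≤ r ∧ Rough y l ∧ Smooth y r ∧ m = l * r := by
  induction m using Nat.strong_induction_on with
  | _ m ih =>
    rcases Nat.lt_or_ge 1 m with h1 | h1
    · have hp : (Nat.minFac m).Prime := Nat.minFac_prime (by omega)
      obtain ⟨c, hc⟩ := Nat.minFac_dvd m
      have hc0 : 1 ≤ c := by
        rcases Nat.eq_zero_or_pos c with h | h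
        · rw [h, mul_zero] at hc
          omega
        · exact h
      have hlt : c < m := by
        have h2 := hp.two_le
        calc c < 2 * c := by omega
          _ ≤ Nat.minFac m * c := Nat.mul_le_mul_right c h2
          _ = m := hc.symm
      obtain ⟨l, r, hl, hr, h3, h4, h5⟩ := ih c hlt hc0
      rcases le_or_gt ((Nat.minFac m : ℕ) : ℝ) y with h6 | h6
      · refine ⟨l, Nat.minFac m * r, hl, Nat.mul_pos hp.pos hr, h3, we_smooth_mul hp h6 h4, ?_⟩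
        calc m = Nat.minFac m * c := hc
          _ = Nat.minFac m * (l * r) := by rw [← h5]
          _ = l * (Nat.minFac m * r) := by ring
      · refine ⟨Nat.minFac m * l, r, Nat.mul_pos hp.pos hl, hr, we_rough_mul hp h6 h3, h4, ?_⟩
        calc m = Nat.minFac m * c := hc
          _ = Nat.minFac m * (l * r) := by rw [← h5]
          _ = Nat.minFac m * l * r := by ring
    · have hm1 : m = 1 := by omega
      subst hm1
      refine ⟨1, 1, le_rfl, le_rfl, ?_, ?_, rfl⟩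
      · intro p hp hd
        exact absurd (Nat.dvd_one.1 hd) hp.one_lt.ne'
      · intro p hp hd
        exact absurd (Nat.dvd_one.1 hd) hp.one_lt.ne'

theorem we_mem {θ : ℝ} {q l : ℕ} (hl : 1 ≤ l) (hq : l ≤ q) (hr : Rough ((q : ℝ) ^ θ) l) :
    l = 1 ∨ l ∈ RG θ q := by
  rcases Nat.lt_or_ge 1 l with h1 | h1
  · right
    classical
    unfold RG
    simp only [Finset.mem_filter, Finset.mem_Icc]
    exact ⟨⟨h1, hq⟩, hr⟩
  · left
    omega

/-- the rough part of the numerator; the index `r ≤ q^(1/2+κ')` with denominator dividing an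
element of `S` -/
theorem rs_rat_pr {θ η κ' : ℝ} (hκ : 1 / 2 + κ' + η ≤ 1) {q : ℕ} (hq : 2 ≤ q)
    (S : Finset ℕ) (hS : ∀ k ∈ S, 1 ≤ k ∧ (k : ℝ) ≤ (q : ℝ) ^ η ∧ Smooth ((q : ℝ) ^ θ) k)
    (r : ℚ) (hr : 0 < r ∧ (r : ℝ) ≤ (q : ℝ) ^ (1 / 2 + κ') ∧ ∃ k ∈ S, r.den ∣ k) :
    ∃ (l : ℕ) (b : ℚ), 0 < b ∧ r = l * b ∧ (l = 1 ∨ l ∈ RG θ q) ∧ 1 ≤ l ∧ l ≤ q ∧
      Rough ((q : ℝ) ^ θ) l ∧ Smooth ((q : ℝ) ^ θ) b.num.natAbs ∧
      Smooth ((q : ℝ) ^ θ) b.den := by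
  obtain ⟨hr0, hrq, k, hkS, hk⟩ := hr
  obtain ⟨hk1, hkq, hks⟩ := hS k hkS
  have hq1 : (1 : ℝ) ≤ q := by exact_mod_cast (by omega : 1 ≤ q)
  have hq0 : (0 : ℝ) < q := by linarith
  have hnum : 0 < r.num := Rat.num_pos.2 hr0
  have hnat : 1 ≤ r.num.natAbs := Int.natAbs_pos.2 hnum.ne'
  obtain ⟨l, r₁, hl, hr₁, h1, h2, h3⟩ := rs_split_pr ((q : ℝ) ^ θ) r.num.natAbs hnat
  have hden : 0 < r.den := r.den_pos
  have hcop : Nat.Coprime r.num.natAbs r.den := r.reduced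
  have hcop1 : Nat.Coprime r₁ r.den := by
    refine Nat.Coprime.coprime_dvd_left ?_ hcop
    rw [h3]
    exact dvd_mul_left _ _
  have hnumc : (r.num : ℚ) = (l : ℚ) * r₁ := by
    have h4 : (r.num : ℤ) = ((l * r₁ : ℕ) : ℤ) := by
      rw [← h3]
      exact (Int.natAbs_of_nonneg hnum.le).symm
    rw [h4]
    push_cast
    ring
  set b : ℚ := (r₁ : ℚ) / r.den with hb
  have hbn : b.num = r₁ := by
    rw [hb]
    have h4 : b = ((r₁ : ℤ) : ℚ) / ((r.den : ℤ) : ℚ) := by rw [hb]; push_cast; rfl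
    rw [← hb, h4]
    exact Rat.num_div_eq_of_coprime (by exact_mod_cast hden) (by simpa using hcop1)
  have hbd : b.den = r.den := by
    have h4 : b = ((r₁ : ℤ) : ℚ) / ((r.den : ℤ) : ℚ) := by rw [hb]; push_cast; rfl
    have h5 := Rat.den_div_eq_of_coprime (a := (r₁ : ℤ)) (b := (r.den : ℤ))
      (by exact_mod_cast hden) (by simpa using hcop1)
    rw [← h4] at h5
    exact_mod_cast h5
  have hlq : l ≤ q := by
    have h4 : (l : ℝ) ≤ (q : ℝ) := by
      have h5 : (l : ℝ) ≤ (r.num.natAbs : ℝ) := by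
        rw [h3]
        exact_mod_cast Nat.le_mul_of_pos_right l hr₁
      have h6 : ((r.num.natAbs : ℕ) : ℝ) = (r : ℝ) * r.den := by
        have h7 : (r : ℚ) * r.den = r.num := Rat.mul_den_eq_num r
        have h8 : ((r.num.natAbs : ℕ) : ℚ) = r * r.den := by
          rw [h7]
          have h10 : ((r.num.natAbs : ℕ) : ℤ) = r.num := Int.natAbs_of_nonneg hnum.le
          calc ((r.num.natAbs : ℕ) : ℚ) = (((r.num.natAbs : ℕ) : ℤ) : ℚ) := (Int.cast_natCast _).symm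
            _ = (r.num : ℚ) := by rw [h10]
        exact_mod_cast congrArg (fun x : ℚ => (x : ℝ)) h8
      have h9 : (r.den : ℝ) ≤ (q : ℝ) ^ η := by
        refine le_trans ?_ hkq
        exact_mod_cast Nat.le_of_dvd hk1 hk
      calc (l : ℝ) ≤ (r : ℝ) * r.den := h6 ▸ h5
        _ ≤ (q : ℝ) ^ (1 / 2 + κ') * (q : ℝ) ^ η := by
            have : (0 : ℝ) ≤ (r : ℝ) := by exact_mod_cast hr0.le
            gcongr
        _ = (q : ℝ) ^ (1 / 2 + κ' + η) := (Real.rpow_add hq0 _ _).symm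
        _ ≤ (q : ℝ) ^ (1 : ℝ) := Real.rpow_le_rpow_of_exponent_le hq1 hκ
        _ = q := Real.rpow_one _
    exact_mod_cast h4
  refine ⟨l, b, ?_, ?_, we_mem hl hlq h1, hl, hlq, h1, ?_, ?_⟩
  · rw [hb]
    have h4 : (0 : ℚ) < r₁ := by exact_mod_cast hr₁
    have h5 : (0 : ℚ) < r.den := by exact_mod_cast hden
    exact div_pos h4 h5
  · rw [hb, ← mul_div_assoc, ← hnumc]
    exact (Rat.num_div_den r).symm
  · rw [hbn]
    simpa using h2
  · rw [hbd]
    intro p hp hd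
    exact hks p hp (hd.trans hk)

theorem rs_nat_pr {θ κ' : ℝ} (hκ : 1 / 2 + κ' ≤ 1) {q : ℕ} (hq : 2 ≤ q) (r : ℕ) (hr : 1 ≤ r)
    (hr' : (r : ℝ) ≤ (q : ℝ) ^ (1 / 2 + κ')) :
    ∃ l b : ℕ, 1 ≤ b ∧ r = l * b ∧ (l = 1 ∨ l ∈ RG θ q) ∧ 1 ≤ l ∧ l ≤ q ∧
      Rough ((q : ℝ) ^ θ) l ∧ Smooth ((q : ℝ) ^ θ) b := by
  obtain ⟨l, b, hl, hb, h1, h2, h3⟩ := rs_split_pr ((q : ℝ) ^ θ) r hr
  have hq1 : (1 : ℝ) ≤ q := by exact_mod_cast (by omega : 1 ≤ q)
  have hlq : l ≤ q := by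
    have h4 : (r : ℝ) ≤ q := by
      calc (r : ℝ) ≤ (q : ℝ) ^ (1 / 2 + κ') := hr'
        _ ≤ (q : ℝ) ^ (1 : ℝ) := Real.rpow_le_rpow_of_exponent_le hq1 hκ
        _ = q := Real.rpow_one _
    have h5 : r ≤ q := by exact_mod_cast h4
    refine le_trans ?_ h5
    rw [h3]
    exact Nat.le_mul_of_pos_right l hb
  exact ⟨l, b, hb, h3, we_mem hl hlq h1, hl, hlq, h1, h2⟩

alias rs_split := rs_split_pr
alias rs_nat := rs_nat_pr
alias rs_rat := rs_rat_pr

end Pool.Agent.SGW
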