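import Pool.Agent.Lib_helper45.SGDF.All
import Pool.Agent.Lib_helper24.SGAF.Fin
import Pool.Agent.Lib_helper84.SGCF.All
import Pool.Agent.Lib_helper84.SGN.DefsG
import Pool.Agent.Lib_helper92.SGWF.WA
import Pool.Agent.Lib_helper92.SGWF.WD2
import Pool.Agent.Lib_helper92.SGWF.WE

set_option autoImplicit false

namespace Pool.Agent.SGW

open Complex MeasureTheory Filter Topology
open Pool.Agent.SGN (Att IsEig IsLambda oddCrit allZer Many Bad Model al vt wtt vr wr Smooth Rough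
  gmu D0 invc sqr)
open Pool.Agent.SGD (Par GCl DD0 SG SH RG AR DFam Mem)
open Pool.Agent.ABS (LData oddZ)
open scoped ENNReal

theorem wf_EE_nonneg {n : ℕ} (M : Model n) (f : M.Om → ℂ) :
    0 ≤ M.EE (fun w => ‖f w‖ ^ 2) := by
  unfold Model.EE
  let _ := M.ms
  exact integral_nonneg fun w => by positivity

theorem wf_factor {n : ℕ} (hn : 1 ≤ n) {θ : ℝ} (hθ : 0 < θ) {q : ℕ} (hq : 2 ≤ q) {l : ℕ}
    (hl : 1 ≤ l) (hlq : l ≤ q) :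
    (n : ℝ) ^ (2 * (Real.log l / Real.log ((q : ℝ) ^ θ))) ≤ (n : ℝ) ^ (2 / θ) := by
  have hn' : (1 : ℝ) ≤ n := by exact_mod_cast hn
  have hq' : (1 : ℝ) < q := by exact_mod_cast (by omega : 1 < q)
  have hlq' : (0 : ℝ) < Real.log q := Real.log_pos hq'
  apply Real.rpow_le_rpow_of_exponent_le hn'
  rw [Real.log_rpow (by linarith)]
  have h1 : Real.log l ≤ Real.log q := by
    apply Real.log_le_log
    · exact_mod_cast hl
    · exact_mod_cast hlq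
  have h2 : Real.log l / (θ * Real.log q) ≤ 1 / θ := by
    rw [div_le_div_iff₀ (by positivity) hθ]
    nlinarith
  calc 2 * (Real.log l / (θ * Real.log q)) ≤ 2 * (1 / θ) := by linarith
    _ = 2 / θ := by ring

theorem wtt_form_pr {n : ℕ} (hn : 1 ≤ n) (M : Model n) {θ η κ' : ℝ} (hθ : 0 < θ)
    (hκ : 1 / 2 + κ' + η ≤ 1) {q : ℕ} (hq : 2 ≤ q) (S : Finset ℕ)
    (hS : ∀ k ∈ S, 1 ≤ k ∧ (k : ℝ) ≤ (q : ℝ) ^ η ∧ Smooth ((q : ℝ) ^ θ) k) (T : Finset ℚ)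
    (hT : ∀ r ∈ T, 0 < r ∧ (r : ℝ) ≤ (q : ℝ) ^ (1 / 2 + κ') ∧ ∃ k ∈ S, r.den ∣ k) :
    ∃ Q : Finset ℚ, (∀ r ∈ Q, 0 < r) ∧ ∀ F : ℝ → ℂ,
      ∑ r ∈ T, ‖F r‖ ^ 2 * M.EE (fun w => ‖wtt (fun m => M.X m w) S r‖ ^ 2) ≤
        AR θ q ((n : ℝ) ^ (2 / θ)) (Q.image fun r : ℚ => (r : ℝ))
          (Function.extend (fun r : ℚ => (r : ℝ))
            (fun r => M.EE (fun w => ‖wr (fun m => M.X m w) S ((q : ℝ) ^ θ) r‖ ^ 2)) 0) F := by
  have hq' : (1 : ℝ) < q := by exact_mod_cast (by omega : 1 < q)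
  have hy : 1 < (q : ℝ) ^ θ := Real.one_lt_rpow hq' hθ
  have hS' : ∀ k ∈ S, 1 ≤ k ∧ Smooth ((q : ℝ) ^ θ) k := fun k hk => ⟨(hS k hk).1, (hS k hk).2.2⟩
  refine ar_bound (α := ℚ) (fun r : ℚ => (r : ℝ)) Rat.cast_injective (θ := θ)
    (Cρ := (n : ℝ) ^ (2 / θ)) (q := q) (by positivity) T
    (fun r => M.EE (fun w => ‖wtt (fun m => M.X m w) S r‖ ^ 2))
    (fun r => M.EE (fun w => ‖wr (fun m => M.X m w) S ((q : ℝ) ^ θ) r‖ ^ 2))
    (fun b => wf_EE_nonneg M _) (fun r => 0 < r) ?_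
  intro r hr
  obtain ⟨l, b, hb, hrl, hl1, hl, hlq, hlr, hbn, hbd⟩ := rs_rat (θ := θ) hκ hq S hS r (hT r hr)
  have key := wtt_EE hn M S hy hS' l b hl hlr hb hbn hbd
  have hW := wf_EE_nonneg M (fun w => wr (fun m => M.X m w) S ((q : ℝ) ^ θ) b)
  refine ⟨l, b, hb, by rw [hrl]; push_cast; ring, ?_⟩
  rcases hl1 with h1 | h1
  · left
    refine ⟨h1, ?_⟩
    subst h1
    simp only [Nat.cast_one, Real.log_one, zero_div, mul_zero, Real.rpow_zero, div_one,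
      one_mul] at key hrl ⊢
    rw [hrl]
    exact key
  · right
    refine ⟨h1, ?_⟩
    rw [hrl]
    refine key.trans ?_
    exact mul_le_mul_of_nonneg_right (div_le_div_of_nonneg_right (wf_factor hn hθ hq hl hlq)
      (Nat.cast_nonneg l)) hW

theorem vt_form_pr {n : ℕ} (hn : 1 ≤ n) (M : Model n) {θ κ' : ℝ} (hθ : 0 < θ)
    (hκ : 1 / 2 + κ' ≤ 1) {q : ℕ} (hq : 2 ≤ q) (S : Finset ℕ)
    (hS : ∀ k ∈ S, 1 ≤ k ∧ Smooth ((q : ℝ) ^ θ) k) (T : Finset ℕ)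
    (hT : ∀ r ∈ T, 1 ≤ r ∧ (r : ℝ) ≤ (q : ℝ) ^ (1 / 2 + κ')) :
    ∃ Q : Finset ℕ, (∀ r ∈ Q, 1 ≤ r) ∧ ∀ F : ℝ → ℂ,
      ∑ r ∈ T, ‖F r‖ ^ 2 * M.EE (fun w => ‖vt (fun m => M.X m w) S r‖ ^ 2) ≤
        AR θ q ((n : ℝ) ^ (2 / θ)) (Q.image fun r : ℕ => (r : ℝ))
          (Function.extend (fun r : ℕ => (r : ℝ))
            (fun r => M.EE (fun w => ‖vr (fun m => M.X m w) S ((q : ℝ) ^ θ) r‖ ^ 2)) 0) F := by
  have hq' : (1 : ℝ) < q := by exact_mod_cast (by omega : 1 < q)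
  have hy : 1 < (q : ℝ) ^ θ := Real.one_lt_rpow hq' hθ
  refine ar_bound (α := ℕ) (fun r : ℕ => (r : ℝ)) Nat.cast_injective (θ := θ)
    (Cρ := (n : ℝ) ^ (2 / θ)) (q := q) (by positivity) T
    (fun r => M.EE (fun w => ‖vt (fun m => M.X m w) S r‖ ^ 2))
    (fun r => M.EE (fun w => ‖vr (fun m => M.X m w) S ((q : ℝ) ^ θ) r‖ ^ 2))
    (fun b => wf_EE_nonneg M _) (fun r => 1 ≤ r) ?_
  intro r hr
  obtain ⟨l, b, hb, hrl, hl1, hl, hlq, hlr, hbs⟩ := rs_nat (θ := θ) hκ hq r (hT r hr).1 (hT r hr).2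
  have key := vt_EE hn M S hy hS l b hl hlr hb hbs
  refine ⟨l, b, hb, by rw [hrl]; push_cast; ring, ?_⟩
  have hW := wf_EE_nonneg M (fun w => vr (fun m => M.X m w) S ((q : ℝ) ^ θ) b)
  rcases hl1 with h1 | h1
  · left
    refine ⟨h1, ?_⟩
    subst h1
    simp only [Nat.cast_one, Real.log_one, zero_div, mul_zero, Real.rpow_zero, div_one,
      one_mul] at key hrl ⊢
    rw [hrl]
    exact key
  · right
    refine ⟨h1, ?_⟩
    rw [hrl]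
    refine key.trans ?_
    exact mul_le_mul_of_nonneg_right (div_le_div_of_nonneg_right (wf_factor hn hθ hq hl hlq)
      (Nat.cast_nonneg l)) hW

alias wtt_form := wtt_form_pr
alias vt_form := vt_form_pr

end Pool.Agent.SGW
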