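import Pool.Agent.Lib_helper45.SGDF.All
import Pool.Agent.Lib_helper24.SGAF.Fin
import Pool.Agent.Lib_helper84.SGCF.All
import Pool.Agent.Lib_helper84.SGN.DefsG
import Pool.Agent.Lib_helper92.SGWF.GM
import Pool.Agent.Lib_helper92.SGWF.WA
import Pool.Agent.Lib_helper92.SGWF.WB
import Pool.Agent.Lib_helper92.SGWF.WC
import Pool.Agent.Lib_helper92.SGWF.WF

set_option autoImplicit false

namespace Pool.Agent.SGW

open Complex MeasureTheory Filter Topology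
open Pool.Agent.SGN (Att IsEig IsLambda oddCrit allZer Many Bad Model al vt wtt vr wr Smooth Rough
  gmu D0 invc sqr)
open Pool.Agent.SGD (Par GCl DD0 SG SH RG AR DFam Mem)
open Pool.Agent.ABS (LData oddZ)
open scoped ENNReal

theorem wg_al_one (lam : ℕ → ℂ) : al lam 1 = 1 := by
  unfold al
  rw [Nat.factorization_one, Finsupp.prod_zero_index]

theorem vr_one_pr (lam : ℕ → ℂ) (h1 : lam 1 = 1) (S : Finset ℕ) (hS : 1 ∈ S) (y : ℝ) :
    vr lam S y 1 = 1 := by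
  classical
  have hsm : Smooth y 1 := fun p hp h => absurd (Nat.dvd_one.1 h) hp.one_lt.ne'
  unfold vr
  rw [Finset.sum_eq_single_of_mem 1 hS, Finset.sum_eq_single_of_mem 1 hS]
  · rw [if_pos]
    · simp [h1, wg_al_one]
    · refine ⟨by simp, ?_⟩
      simpa using hsm
  · intro k _ hk
    rw [if_neg]
    rintro ⟨h, -⟩
    rw [one_mul] at h
    exact hk (Nat.dvd_one.1 h)
  · intro k _ hk
    refine Finset.sum_eq_zero fun k' _ => ?_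
    rw [if_neg]
    rintro ⟨h, -⟩
    exact hk (Nat.dvd_one.1 (dvd_trans (Dvd.intro _ rfl) h))

theorem wg_castQ : Function.Injective (fun r : ℚ => (r : ℝ)) := Rat.cast_injective

theorem wg_castN : Function.Injective (fun r : ℕ => (r : ℝ)) := Nat.cast_injective

theorem wg_EE_nonneg {n : ℕ} (M : Model n) (f : M.Om → ℝ) (hf : ∀ w, 0 ≤ f w) : 0 ≤ M.EE f :=
  integral_nonneg hf

theorem wg_AR_nonneg {θ : ℝ} {q : ℕ} {Cρ : ℝ} (hC : 0 ≤ Cρ) {Q : Finset ℝ} {W : ℝ → ℝ}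
    (hW : ∀ r ∈ Q, 0 ≤ W r) (F : ℝ → ℂ) : 0 ≤ AR θ q Cρ Q W F := by
  unfold AR
  refine add_nonneg (Finset.sum_nonneg fun r hr => mul_nonneg (sq_nonneg _) (hW r hr))
    (mul_nonneg hC (Finset.sum_nonneg fun l _ => mul_nonneg (by positivity)
      (Finset.sum_nonneg fun r hr => mul_nonneg (sq_nonneg _) (hW r hr))))

theorem wg_pow {q : ℕ} (hq : 1 ≤ q) {δ δ' : ℝ} (h : δ' ≤ δ) :
    (q : ℝ) ^ (-δ) ≤ (q : ℝ) ^ (-δ') :=
  Real.rpow_le_rpow_of_exponent_le (by exact_mod_cast hq) (by linarith)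

theorem wg_le {m n : ℕ} (hm : 1 ≤ m) {A : ℝ} (hA : (n : ℝ) ≤ A) {x : ℝ} (h : x ≤ (m : ℝ) ^ n) :
    x ≤ (m : ℝ) ^ A := by
  refine h.trans ?_
  rw [← Real.rpow_natCast]
  exact Real.rpow_le_rpow_of_exponent_le (by exact_mod_cast hm) hA

/-- the values at the reals of a function on the rationals -/
noncomputable def wg_W {n : ℕ} (M : Model n) (S : Finset ℕ) (y : ℝ) : ℝ → ℝ :=
  Function.extend (fun r : ℚ => (r : ℝ))
    (fun r => M.EE (fun w => ‖wr (fun m => M.X m w) S y r‖ ^ 2)) 0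

noncomputable def wg_V {n : ℕ} (M : Model n) (S : Finset ℕ) (y : ℝ) : ℝ → ℝ :=
  Function.extend (fun r : ℕ => (r : ℝ))
    (fun r => M.EE (fun w => ‖vr (fun m => M.X m w) S y r‖ ^ 2)) 0

theorem wg_W_apply {n : ℕ} (M : Model n) (S : Finset ℕ) (y : ℝ) (r : ℚ) :
    wg_W M S y (r : ℝ) = M.EE (fun w => ‖wr (fun m => M.X m w) S y r‖ ^ 2) :=
  wg_castQ.extend_apply _ _ r

theorem wg_V_apply {n : ℕ} (M : Model n) (S : Finset ℕ) (y : ℝ) (r : ℕ) :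
    wg_V M S y (r : ℝ) = M.EE (fun w => ‖vr (fun m => M.X m w) S y r‖ ^ 2) :=
  wg_castN.extend_apply _ _ r

theorem fam_pr (n : ℕ) (hn : 2 ≤ n) (K : Set (Fin n → ℂ)) (hK : IsCompact K)
    (hK' : ∀ μ ∈ K, ∀ j, |(μ j).re| < 1 / 2) (T : ℝ) (hT : 0 ≤ T) :
    ∃ (p : Par) (C δ θ₀ : ℝ), p.T = T ∧ 0 < C ∧ 0 < δ ∧ 0 < θ₀ ∧ θ₀ ≤ 1 ∧ (n : ℝ) ≤ p.A ∧
      (∀ μ ∈ K, p.GC (gmu μ)) ∧
      ∀ θ : ℝ, 0 < θ → θ < θ₀ → ∃ q₀ : ℕ, ∀ (q : ℕ) [NeZero q], q.Prime → q₀ ≤ q →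
      ∀ (β : Type) [Fintype β] (lam : β → ℕ → ℂ) (μ : β → Fin n → ℂ),
        Function.Injective lam → (∀ b, μ b ∈ K) → (∀ b, Att n q (μ b) (lam b)) →
        ∃ (om : β → ℝ) (S : Finset ℕ) (QG QH : Finset ℝ) (W V : ℝ → ℝ),
          (((Finset.univ.filter fun b => om b < 1 / 2).card : ℕ) : ℝ) ≤
            C * (q : ℝ) ^ ((n : ℝ) - δ) ∧
          DFam p θ ((n : ℝ) ^ (2 / θ)) (C * Real.exp (-(p.c₀ / θ))) q (C * (q : ℝ) ^ (n : ℝ))
            Finset.univ om lam (fun b => al (lam b)) S QG QH W V := by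
  have hn1 : 1 ≤ n := by omega
  obtain ⟨M⟩ := SGN.IF_C1 n hn1
  obtain ⟨C₁, κ, η, δ, q₁, hC₁, hκ, hκ4, hη, hηκ, hδ, hmls⟩ := SGN.IF_MLS n hn M K hK hK'
  obtain ⟨c, hc, hal⟩ := SGN.IF_C5 n hn1
  obtain ⟨C₇, c₀, θ₀, hC₇, hc₀, hθ₀, hmol⟩ := SGN.IF_C7 n hn1 M η hη
  set A : ℝ := max n c with hA
  have hA0 : 0 ≤ A := le_max_of_le_left (Nat.cast_nonneg n)
  obtain ⟨κg, c₁, Mg, hκg, hκg1, hc₁, hgc⟩ := gmu_class hn K hK hK' T (3 * A + 5)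
  let p : Par :=
    { κ := κg, T := T, Sg := 3 * A + 5, c₁ := c₁, M := Mg, A := A, η := η, κ' := κ / 2,
      δ := min δ 1, C₂ := max C₇ 1, c₀ := c₀, hκ := hκg, hκ1 := hκg1, hT := hT, hSg := le_refl _,
      hc₁ := hc₁, hA := hA0, hη := hη, hη1 := by linarith, hκ' := by linarith,
      hκ'1 := by linarith, hδ := lt_min hδ one_pos, hδ1 := min_le_right _ _,
      hC₂ := le_max_of_le_right zero_le_one, hc₀ := hc₀ }
  set C : ℝ := max C₁ C₇ with hCdef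
  have hC : 0 < C := lt_max_of_lt_left hC₁
  refine ⟨p, C, δ, min θ₀ 1, rfl, hC, hδ, lt_min hθ₀ one_pos, min_le_right _ _, le_max_left _ _,
    fun μ hμ => hgc μ hμ, fun θ hθ hθ' => ?_⟩
  obtain ⟨q₂, hmol'⟩ := hmol θ hθ (hθ'.trans_le (min_le_left _ _))
  refine ⟨max q₁ q₂, fun q _ hq hqq β _ lam μ hinj hμK hAtt => ?_⟩
  have hq1 : q₁ ≤ q := (le_max_left _ _).trans hqq
  have hq2 : q₂ ≤ q := (le_max_right _ _).trans hqq
  have hqpos : (0 : ℝ) < q := by exact_mod_cast hq.pos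
  obtain ⟨S, hS1, hS, hV, hW, hWt⟩ := hmol' q hq2
  obtain ⟨hcard, om, hom, hsmall, hls⟩ := hmls q hq hq1 β lam μ hinj hμK hAtt
  have hlam : ∀ b, lam b 1 = 1 ∧ ∀ m : ℕ, ‖lam b m‖ ≤ (m : ℝ) ^ n := by
    intro b
    obtain ⟨χ, _, f, hf⟩ := hAtt b
    exact SGN.IF_A1 n q hn χ (μ b) f (lam b) hf
  have hR : (0 : ℝ) ≤ (q : ℝ) ^ (1 / 2 + κ / 2) := by positivity
  have hSk : ∀ k ∈ S, 1 ≤ k := fun k hk => (hS k hk).1
  obtain ⟨TG, hTG, hSG⟩ := sg_eq S hSk hR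
  obtain ⟨QG, hQG, hG⟩ := wtt_form hn1 M hθ (η := η) (κ' := κ / 2) (by linarith) hq.two_le S hS TG
    hTG
  set TH : Finset ℕ := Finset.Icc 1 ⌊(q : ℝ) ^ (1 / 2 + κ / 2)⌋₊ with hTHdef
  have hTH : ∀ r ∈ TH, 1 ≤ r ∧ (r : ℝ) ≤ (q : ℝ) ^ (1 / 2 + κ / 2) := by
    intro r hr
    rw [hTHdef, Finset.mem_Icc] at hr
    exact ⟨hr.1, (Nat.cast_le.2 hr.2).trans (Nat.floor_le hR)⟩
  obtain ⟨QH, hQH, hH⟩ := vt_form hn1 M hθ (κ' := κ / 2) (by linarith) hq.two_le S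
    (fun k hk => ⟨(hS k hk).1, (hS k hk).2.2⟩) TH hTH
  have hCρ : (0 : ℝ) ≤ (n : ℝ) ^ (2 / θ) := by positivity
  have hlsS := hls S (fun k hk => ⟨(hS k hk).1, (hS k hk).2.1⟩) 1 zero_le_one
  have hδq : (q : ℝ) ^ (-δ) ≤ (q : ℝ) ^ (-p.δ) := wg_pow hq.one_lt.le (min_le_left _ _)
  have hqn : (0 : ℝ) ≤ (q : ℝ) ^ (n : ℝ) := by positivity
  have hW0 : ∀ r ∈ QG.image (fun r : ℚ => (r : ℝ)), 0 ≤ wg_W M S ((q : ℝ) ^ θ) r := by
    intro r hr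
    obtain ⟨r', _, rfl⟩ := Finset.mem_image.1 hr
    rw [wg_W_apply]
    exact wg_EE_nonneg M _ fun w => sq_nonneg _
  have hV0 : ∀ r ∈ QH.image (fun r : ℕ => (r : ℝ)), 0 ≤ wg_V M S ((q : ℝ) ^ θ) r := by
    intro r hr
    obtain ⟨r', _, rfl⟩ := Finset.mem_image.1 hr
    rw [wg_V_apply]
    exact wg_EE_nonneg M _ fun w => sq_nonneg _
  refine ⟨om, S, QG.image (fun r : ℚ => (r : ℝ)), QH.image (fun r : ℕ => (r : ℝ)),
    wg_W M S ((q : ℝ) ^ θ), wg_V M S ((q : ℝ) ^ θ), ?_, ?_⟩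
  · exact hsmall.trans (mul_le_mul_of_nonneg_right (le_max_left _ _) (by positivity))
  refine
    { om_nonneg := fun b _ => (hom b).1
      om_sum := ?_
      lam_one := fun b _ => (hlam b).1
      lam_le := fun b _ m hm => wg_le hm (le_max_left _ _) ((hlam b).2 m)
      al_one := fun b _ => wg_al_one _
      al_le := fun b _ k hk => (hal (lam b) (hlam b).2 k (hSk k hk)).trans
        (Real.rpow_le_rpow_of_exponent_le (by exact_mod_cast hSk k hk) (le_max_right _ _))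
      S_one := hS1
      S_le := fun k hk => ⟨(hS k hk).1, (hS k hk).2.1⟩
      lsG := ?_
      lsH := ?_
      QG_pos := ?_
      W_nonneg := hW0
      W_sum := ?_
      W_tilt := ?_
      QH_one := ?_
      V_nonneg := hV0
      V_one := ?_
      V_sum := ?_ }
  · calc ∑ b, om b ≤ ∑ _b : β, (1 : ℝ) := Finset.sum_le_sum fun b _ => (hom b).2
      _ = (Fintype.card β : ℝ) := by simp
      _ ≤ C₁ * (q : ℝ) ^ (n : ℝ) := hcard
      _ ≤ C * (q : ℝ) ^ (n : ℝ) := mul_le_mul_of_nonneg_right (le_max_left _ _) hqn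
  · intro F hF
    have h1 := hlsS.1 TG (fun r => F r) (fun r hr => ⟨(hTG r hr).1, (hTG r hr).2.1, hF _⟩)
    have h2 := hG F
    have h3 := wg_AR_nonneg (θ := θ) (q := q) hCρ hW0 F
    have e : ∀ b, SG S ((q : ℝ) ^ (1 / 2 + p.κ')) (lam b) (al (lam b)) F =
        ∑ r ∈ TG, F r * wtt (lam b) S r := fun b => hSG (lam b) F
    simp only [e]
    refine h1.trans ?_
    rw [one_pow, one_mul]
    have h4 : ∑ r ∈ TG, ‖F r‖ ^ 2 * M.EE (fun w => ‖wtt (fun m => M.X m w) S r‖ ^ 2) +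
        (q : ℝ) ^ (-δ) ≤ AR θ q ((n : ℝ) ^ (2 / θ)) (QG.image fun r : ℚ => (r : ℝ))
          (wg_W M S ((q : ℝ) ^ θ)) F + (q : ℝ) ^ (-p.δ) := add_le_add h2 hδq
    calc C₁ * (q : ℝ) ^ (n : ℝ) * (∑ r ∈ TG, ‖F r‖ ^ 2 *
          M.EE (fun w => ‖wtt (fun m => M.X m w) S r‖ ^ 2) + (q : ℝ) ^ (-δ))
        ≤ C₁ * (q : ℝ) ^ (n : ℝ) * (AR θ q ((n : ℝ) ^ (2 / θ)) (QG.image fun r : ℚ => (r : ℝ))
          (wg_W M S ((q : ℝ) ^ θ)) F + (q : ℝ) ^ (-p.δ)) :=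
          mul_le_mul_of_nonneg_left h4 (by positivity)
      _ ≤ _ := mul_le_mul_of_nonneg_right
          (mul_le_mul_of_nonneg_right (le_max_left _ _) hqn) (by positivity)
  · intro F hF
    have h1 := hlsS.2 TH (fun r => F r) (fun r hr => ⟨(hTH r hr).1, (hTH r hr).2, hF _⟩)
    have h2 := hH F
    have h3 := wg_AR_nonneg (θ := θ) (q := q) hCρ hV0 F
    have e : ∀ b, SH S ((q : ℝ) ^ (1 / 2 + p.κ')) (lam b) (al (lam b)) F =
        ∑ r ∈ TH, F r * vt (lam b) S r := fun b => sh_eq S hSk hR (lam b) F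
    simp only [e]
    refine h1.trans ?_
    rw [one_pow, one_mul]
    have h4 : ∑ r ∈ TH, ‖F r‖ ^ 2 * M.EE (fun w => ‖vt (fun m => M.X m w) S r‖ ^ 2) +
        (q : ℝ) ^ (-δ) ≤ AR θ q ((n : ℝ) ^ (2 / θ)) (QH.image fun r : ℕ => (r : ℝ))
          (wg_V M S ((q : ℝ) ^ θ)) F + (q : ℝ) ^ (-p.δ) := add_le_add h2 hδq
    calc C₁ * (q : ℝ) ^ (n : ℝ) * (∑ r ∈ TH, ‖F r‖ ^ 2 *
          M.EE (fun w => ‖vt (fun m => M.X m w) S r‖ ^ 2) + (q : ℝ) ^ (-δ))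
        ≤ C₁ * (q : ℝ) ^ (n : ℝ) * (AR θ q ((n : ℝ) ^ (2 / θ)) (QH.image fun r : ℕ => (r : ℝ))
          (wg_V M S ((q : ℝ) ^ θ)) F + (q : ℝ) ^ (-p.δ)) :=
          mul_le_mul_of_nonneg_left h4 (by positivity)
      _ ≤ _ := mul_le_mul_of_nonneg_right
          (mul_le_mul_of_nonneg_right (le_max_left _ _) hqn) (by positivity)
  · intro r hr
    obtain ⟨r', hr', rfl⟩ := Finset.mem_image.1 hr
    exact_mod_cast hQG r' hr'
  · have h1 := sum_ext (fun r : ℚ => (r : ℝ)) wg_castQ QG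
      (fun r => M.EE (fun w => ‖wr (fun m => M.X m w) S ((q : ℝ) ^ θ) r‖ ^ 2)) (fun _ => 1)
    simp only [one_mul] at h1
    calc ∑ r ∈ QG.image (fun r : ℚ => (r : ℝ)), wg_W M S ((q : ℝ) ^ θ) r =
        ∑ b ∈ QG, M.EE (fun w => ‖wr (fun m => M.X m w) S ((q : ℝ) ^ θ) b‖ ^ 2) := h1
      _ ≤ C₇ := hW QG hQG
      _ ≤ p.C₂ := le_max_left _ _
  · have h1 := sum_ext (fun r : ℚ => (r : ℝ)) wg_castQ QG
      (fun r => M.EE (fun w => ‖wr (fun m => M.X m w) S ((q : ℝ) ^ θ) r‖ ^ 2))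
      (fun r => r ^ (2 * p.c₀ / (θ * Real.log q)))
    calc ∑ r ∈ QG.image (fun r : ℚ => (r : ℝ)), r ^ (2 * p.c₀ / (θ * Real.log q)) *
          wg_W M S ((q : ℝ) ^ θ) r =
        ∑ b ∈ QG, (b : ℝ) ^ (2 * p.c₀ / (θ * Real.log q)) *
          M.EE (fun w => ‖wr (fun m => M.X m w) S ((q : ℝ) ^ θ) b‖ ^ 2) := h1
      _ ≤ C₇ := by
          have h2 := hWt QG hQG
          simpa only [mul_div_assoc] using h2
      _ ≤ p.C₂ := le_max_left _ _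
  · intro r hr
    obtain ⟨r', hr', rfl⟩ := Finset.mem_image.1 hr
    exact_mod_cast hQH r' hr'
  · have h1 : wg_V M S ((q : ℝ) ^ θ) 1 = 1 := by
      have h2 := wg_V_apply M S ((q : ℝ) ^ θ) 1
      rw [Nat.cast_one] at h2
      rw [h2]
      have h3 : (fun w => ‖vr (fun m => M.X m w) S ((q : ℝ) ^ θ) 1‖ ^ 2) = fun _ => (1 : ℝ) := by
        funext w
        rw [vr_one_pr _ (M.one w) S hS1]
        simp
      rw [h3]
      letI := M.ms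
      haveI := M.pr
      unfold Model.EE
      simp
    rw [h1]
    exact le_max_right _ _
  · have h1 : (QH.image (fun r : ℕ => (r : ℝ))).filter (fun r => r ≠ 1) =
        (QH.filter fun r => r ≠ 1).image (fun r : ℕ => (r : ℝ)) := by
      ext x
      simp only [Finset.mem_filter, Finset.mem_image]
      constructor
      · rintro ⟨⟨r, hr, rfl⟩, h⟩
        exact ⟨r, ⟨hr, fun h' => h (by rw [h']; exact Nat.cast_one)⟩, rfl⟩
      · rintro ⟨r, ⟨hr, h⟩, rfl⟩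
        exact ⟨⟨r, hr, rfl⟩, fun h' => h (by exact_mod_cast h')⟩
    rw [h1]
    have h2 := sum_ext (fun r : ℕ => (r : ℝ)) wg_castN (QH.filter fun r => r ≠ 1)
      (fun r => M.EE (fun w => ‖vr (fun m => M.X m w) S ((q : ℝ) ^ θ) r‖ ^ 2)) (fun _ => 1)
    simp only [one_mul] at h2
    calc ∑ r ∈ (QH.filter fun r => r ≠ 1).image (fun r : ℕ => (r : ℝ)),
          wg_V M S ((q : ℝ) ^ θ) r =
        ∑ b ∈ QH.filter (fun r => r ≠ 1),
          M.EE (fun w => ‖vr (fun m => M.X m w) S ((q : ℝ) ^ θ) b‖ ^ 2) := h2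
      _ ≤ C₇ * Real.exp (-(c₀ / θ)) := by
          refine hV _ fun r hr => ?_
          obtain ⟨hr1, hr2⟩ := Finset.mem_filter.1 hr
          have := hQH r hr1
          omega
      _ ≤ C * Real.exp (-(p.c₀ / θ)) :=
          mul_le_mul_of_nonneg_right (le_max_right _ _) (Real.exp_nonneg _)

alias vr_one := vr_one_pr
alias fam := fam_pr

end Pool.Agent.SGW
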