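import Pool.Agent.Lib_helper45.SGDF.All
import Pool.Agent.Lib_helper24.SGAF.Fin
import Pool.Agent.Lib_helper84.SGCF.All
import Pool.Agent.Lib_helper84.SGN.DefsG

set_option autoImplicit false

namespace Pool.Agent.SGW

open Complex MeasureTheory Filter Topology
open Pool.Agent.SGN (Att IsEig IsLambda oddCrit allZer Many Bad Model al vt wtt vr wr Smooth Rough
  gmu D0 invc sqr)
open Pool.Agent.SGD (Par GCl DD0 SG SH RG AR DFam Mem)
open Pool.Agent.ABS (LData oddZ)
open scoped ENNReal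

theorem ord_eq_pr {q : ℕ} (hq : 2 ≤ q) {Λ F : ℂ → ℂ} (hΛ : Differentiable ℂ Λ)
    (h : ∀ s : ℂ, Λ s = (q : ℂ) ^ (s / 2) * F s) (s : ℂ) :
    Differentiable ℂ F ∧ analyticOrderNatAt F s = analyticOrderNatAt Λ s := by
  have hq0 : (q : ℂ) ≠ 0 := by exact_mod_cast (by omega : q ≠ 0)
  have hF : F = fun s => (q : ℂ) ^ (-(s / 2)) * Λ s := by
    funext z
    rw [h z, ← mul_assoc, ← Complex.cpow_add _ _ hq0]
    simp
  have hd : Differentiable ℂ (fun s : ℂ => (q : ℂ) ^ (-(s / 2))) := by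
    intro z
    apply DifferentiableAt.const_cpow
    · fun_prop
    · left; exact hq0
  have hFd : Differentiable ℂ F := by
    rw [hF]
    exact hd.mul hΛ
  refine ⟨hFd, ?_⟩
  have hd2 : Differentiable ℂ (fun s : ℂ => (q : ℂ) ^ (s / 2)) := by
    intro z
    apply DifferentiableAt.const_cpow
    · fun_prop
    · left; exact hq0
  have hΛe : Λ = (fun s : ℂ => (q : ℂ) ^ (s / 2)) * F := by
    funext z
    exact h z
  have h0 : analyticOrderAt (fun s : ℂ => (q : ℂ) ^ (s / 2)) s = 0 := by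
    rw [(hd2.analyticAt s).analyticOrderAt_eq_zero]
    exact fun hc => hq0 ((Complex.cpow_eq_zero_iff _ _).1 hc).1
  unfold analyticOrderNatAt
  rw [hΛe, analyticOrderAt_mul (hd2.analyticAt s) (hFd.analyticAt s), h0, zero_add]

theorem fe_F_pr {q : ℕ} (hq : 2 ≤ q) {D : ℝ → ℂ} {e : ℂ}
    (fe : ∀ v : ℝ, D v = e * (starRingEnd ℂ) (D (-v - Real.log q))) {F : ℂ → ℂ}
    (hF : ∀ s : ℂ, F s = ∫ v : ℝ, D v * cexp ((s - 1 / 2) * v)) (s : ℂ) :
    F s = e * (q : ℂ) ^ (1 / 2 - s) * starRingEnd ℂ (F (1 - starRingEnd ℂ s)) := by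
  have hq0 : (q : ℂ) ≠ 0 := by exact_mod_cast (by omega : q ≠ 0)
  have hqr : (q : ℝ) ≠ 0 := by exact_mod_cast (by omega : q ≠ 0)
  have hlog : ((Real.log q : ℝ) : ℂ) = Complex.log q := by
    rw [Complex.natCast_log]
  rw [hF s, hF (1 - starRingEnd ℂ s), ← integral_conj]
  have h1 : ∀ v : ℝ, D v * cexp ((s - 1 / 2) * v) =
      (fun u : ℝ => e * (starRingEnd ℂ) (D u) *
        cexp ((s - 1 / 2) * (((-u - Real.log q : ℝ)) : ℂ))) (-v - Real.log q) := by
    intro v
    simp only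
    rw [fe v]
    congr 3
    push_cast
    ring
  have h2 : ∫ v : ℝ, D v * cexp ((s - 1 / 2) * v) =
      ∫ u : ℝ, e * (starRingEnd ℂ) (D u) *
        cexp ((s - 1 / 2) * (((-u - Real.log q : ℝ)) : ℂ)) := by
    rw [integral_congr_ae (Filter.Eventually.of_forall h1)]
    have h3 := integral_sub_left_eq_self (fun u : ℝ => e * (starRingEnd ℂ) (D u) *
        cexp ((s - 1 / 2) * (((-u - Real.log q : ℝ)) : ℂ))) (volume : Measure ℝ) (-Real.log q)
    rw [← h3]
    apply integral_congr_ae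
    refine Filter.Eventually.of_forall fun v => ?_
    simp only
    rw [show -v - Real.log q = -Real.log q - v by ring]
  rw [h2, ← integral_const_mul]
  apply integral_congr_ae
  refine Filter.Eventually.of_forall fun u => ?_
  simp only
  rw [map_mul, ← Complex.exp_conj, map_mul, map_sub, map_sub, map_one, map_div₀, map_one,
    Complex.conj_conj, Complex.conj_ofReal, map_ofNat]
  rw [Complex.cpow_def_of_ne_zero hq0, ← hlog]
  have : cexp ((s - 1 / 2) * (((-u - Real.log q : ℝ)) : ℂ)) =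
      cexp ((Real.log q : ℝ) * (1 / 2 - s)) * cexp ((1 - s - 1 / 2) * u) := by
    rw [← Complex.exp_add]
    congr 1
    push_cast
    ring
  rw [this]
  ring

alias ord_eq := ord_eq_pr
alias fe_F := fe_F_pr

end Pool.Agent.SGW
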