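import Pool.Agent.Lib_helper45.SGDF.All
import Pool.Agent.Lib_helper24.SGAF.Fin
import Pool.Agent.Lib_helper84.SGCF.All
import Pool.Agent.Lib_helper84.SGN.DefsG
import Pool.Agent.Lib_helper92.SGWF.GM
import Pool.Agent.Lib_helper92.SGWF.WH1

set_option autoImplicit false

namespace Pool.Agent.SGW

open Complex MeasureTheory Filter Topology
open Pool.Agent.SGN (Att IsEig IsLambda oddCrit allZer Many Bad Model al vt wtt vr wr Smooth Rough
  gmu D0 invc sqr)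
open Pool.Agent.SGD (Par GCl DD0 SG SH RG AR DFam Mem)
open Pool.Agent.ABS (LData oddZ)
open scoped ENNReal

/-- (helper81, helper92) -/
theorem memberG_pr {n : ℕ} (hn : 2 ≤ n) (p : Par) (hp : (n : ℝ) ≤ p.A) {α β : ℝ} (hαβ : α < β)
    (hα : |α| ≤ p.T) (hβ : |β| ≤ p.T) :
    ∃ C : ℝ, 0 < C ∧ ∀ (q : ℕ) [NeZero q], q.Prime → ∀ {μ : Fin n → ℂ},
      (∀ j, |(μ j).re| < 1 / 2) → p.GC (gmu μ) → ∀ {lam : ℕ → ℂ}, Att n q μ lam →
      ∃ (Λ : ℂ → ℂ) (X : LData), IsLambda q μ lam Λ ∧ X.dens = DD0 lam (gmu μ) ∧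
        X.A = Real.log q ∧
        (∀ t : ℝ, t ∈ oddZ X.Λ ↔ Odd (analyticOrderNatAt Λ (1 / 2 + t * I))) ∧
        allZer Λ α β ≤ ENNReal.ofReal (C * Real.log q) := by
  obtain ⟨C, hC, hz⟩ := Pool.Agent.SGD.zeros_count p hαβ hα hβ
  refine ⟨C, hC, ?_⟩
  intro q _ hq μ hμ hg lam hatt
  obtain ⟨χ, hχ, f, hf⟩ := hatt
  obtain ⟨h1, hlam⟩ := Pool.Agent.SGN.IF_A1 n q hn χ μ f lam hf
  obtain ⟨e, he, fe⟩ := Pool.Agent.SGN.IF_A2 n q hn hq χ hχ μ hμ f lam hf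
  have hq2 : 2 ≤ q := hq.two_le
  have hlamA : ∀ m : ℕ, 1 ≤ m → ‖lam m‖ ≤ (m : ℝ) ^ p.A := by
    intro m hm
    refine (hlam m).trans ?_
    rw [← Real.rpow_natCast]
    exact Real.rpow_le_rpow_of_exponent_le (by exact_mod_cast hm) hp
  obtain ⟨Λ, hΛ, hΛ'⟩ := lambda_exists hn hq2 μ hμ lam h1 hlam he fe
  have hD : D0 μ lam = DD0 lam (gmu μ) := rfl
  set F : ℂ → ℂ := fun s => ∫ v : ℝ, D0 μ lam v * cexp ((s - 1 / 2) * v) with hFdef
  have hΛF : ∀ s : ℂ, Λ s = (q : ℂ) ^ (s / 2) * F s := hΛ'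
  have hord := fun s : ℂ => ord_eq hq2 hΛ.1 hΛF s
  have hFd : Differentiable ℂ F := (hord 0).1
  obtain ⟨X, hX1, hX2, hX3⟩ := Pool.Agent.SGD.ldata_of p hq2 (lam := lam) (g := gmu μ) hlamA hg he
    fe hFd (fun s => rfl)
  refine ⟨Λ, X, hΛ, hX1, hX2, ?_, ?_⟩
  · intro t
    change Odd (analyticOrderNatAt X.Λ (1 / 2 + t * I)) ↔ _
    rw [hX3, (hord (1 / 2 + t * I)).2]
  · have e1 : allZer Λ α β = allZer F α β := by
      unfold allZer
      refine tsum_congr fun ρ => ?_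
      rw [(hord ρ.1).2]
    rw [e1]
    refine hz q hq2 hlamA h1 hg he fe hFd (fun s => rfl) ?_ ?_
    · intro s hs
      have hs' : (n : ℝ) + 1 < s.re := by linarith
      have h2 := (hΛ.2.1 s hs').2
      rw [hΛF s] at h2
      have hq0 : (q : ℂ) ^ (s / 2) ≠ 0 := by
        rw [Ne, Complex.cpow_eq_zero_iff]
        rintro ⟨h0, -⟩
        exact absurd (Nat.cast_eq_zero.1 h0) (by omega)
      rw [mul_assoc] at h2
      have h3 := mul_left_cancel₀ hq0 h2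
      rw [h3, gmu_laplace hn μ hμ s (by
        have : (0 : ℝ) ≤ n := Nat.cast_nonneg n
        linarith)]
    · intro s
      exact fe_F hq2 fe (fun s => rfl) s

alias memberG := memberG_pr

end Pool.Agent.SGW
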