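import Pool.Agent.Lib_helper45.SGDF.All
import Pool.Agent.Lib_helper24.SGAF.Fin
import Pool.Agent.Lib_helper84.SGCF.All
import Pool.Agent.Lib_helper84.SGN.DefsG

/-!
# Block WI: the count
-/

set_option autoImplicit false

namespace Pool.Agent.SGW

open Complex MeasureTheory Filter Topology
open Pool.Agent.SGN (Att IsEig IsLambda oddCrit allZer Many Bad Model al vt wtt vr wr Smooth Rough
  gmu D0 invc sqr)
open Pool.Agent.SGD (Par GCl DD0 SG SH RG AR DFam Mem)
open Pool.Agent.ABS (LData oddZ)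
open scoped ENNReal

/-- from a bound for all finite subfamilies to a bound for the set -/
theorem fin_count_pr {α : Type} (A : Set α) {B : ℝ} (hB : 0 ≤ B)
    (h : ∀ s : Finset α, (↑s ⊆ A) → (s.card : ℝ) ≤ B) : A.Finite ∧ (A.ncard : ℝ) ≤ B := by
  have hfin : A.Finite := by
    by_contra hinf
    obtain ⟨t, ht, hcard⟩ := Set.Infinite.exists_subset_card_eq (s := A) hinf (⌊B⌋₊ + 1)
    have h1 := h t ht
    rw [hcard] at h1
    have h2 := Nat.lt_floor_add_one B
    push_cast at h1
    linarith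
  refine ⟨hfin, ?_⟩
  have h1 := h hfin.toFinset (by simp)
  rwa [Set.ncard_eq_toFinset_card A hfin]

/-- few_pr odd zeros if `Many` fails -/
theorem few_pr {c C a b x : ℝ} {q : ℕ} (hq : 2 ≤ q) (hc : 0 < c) (hC : 0 < C) (hx : 0 ≤ x)
    (h1 : c ≤ x) (h2 : c * C ≤ x) {Λ : ℂ → ℂ} (hz : allZer Λ a b ≤ ENNReal.ofReal (C * Real.log q))
    (h : ¬ Many c q a b Λ) :
    {t : ℝ | a < t ∧ t < b ∧ Odd (analyticOrderNatAt Λ (1 / 2 + t * I))}.encard ≤
      ⌊x * Real.log q⌋₊ := by
  have hq' : (2 : ℝ) ≤ q := by exact_mod_cast hq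
  have hlog : 0 < Real.log q := Real.log_pos (by linarith)
  have hlt : oddCrit Λ a b < ENNReal.ofReal (x * Real.log q) := by
    unfold Many at h
    rw [not_and_or, not_le, not_le] at h
    rcases h with h | h
    · apply lt_of_lt_of_le h
      apply ENNReal.ofReal_le_ofReal
      exact mul_le_mul_of_nonneg_right h1 hlog.le
    · apply lt_of_lt_of_le h
      calc ENNReal.ofReal c * allZer Λ a b
          ≤ ENNReal.ofReal c * ENNReal.ofReal (C * Real.log q) := by gcongr
        _ = ENNReal.ofReal (c * C * Real.log q) := by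
            rw [← ENNReal.ofReal_mul hc.le]; congr 1; ring
        _ ≤ _ := by
            apply ENNReal.ofReal_le_ofReal
            exact mul_le_mul_of_nonneg_right h2 hlog.le
  unfold oddCrit at hlt
  set E := {t : ℝ | a < t ∧ t < b ∧ Odd (analyticOrderNatAt Λ (1 / 2 + t * I))}.encard with hE
  have hne : E ≠ ⊤ := by
    intro htop
    rw [htop] at hlt
    simp at hlt
  obtain ⟨N, hN⟩ := ENat.ne_top_iff_exists.mp hne
  rw [← hN] at hlt ⊢
  have h3 : ((N : ℕ) : ℝ≥0∞) < ENNReal.ofReal (x * Real.log q) := by simpa using hlt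
  have h4 : (N : ℝ) < x * Real.log q := by
    rw [← ENNReal.ofReal_natCast] at h3
    exact (ENNReal.ofReal_lt_ofReal_iff_of_nonneg (by positivity)).mp h3
  have h5 : N ≤ ⌊x * Real.log q⌋₊ := Nat.le_floor h4.le
  exact_mod_cast h5


alias fin_count := fin_count_pr
alias few := few_pr

end Pool.Agent.SGW
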