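import Pool.Agent.Lib_helper45.SGD.Wanted
import Pool.Agent.Lib_helper84.SGN.IF
import Pool.Agent.Lib_helper92.SGWF.WG
import Pool.Agent.Lib_helper92.SGWF.WH2
import Pool.Agent.Lib_helper92.SGWF.WI

set_option autoImplicit false

namespace Pool.Agent.SGW

open Complex MeasureTheory Filter Topology
open Pool.Agent.SGN (Att IsEig IsLambda oddCrit allZer Many Bad Model al vt wtt vr wr Smooth Rough
  gmu D0 invc sqr)
open Pool.Agent.SGD (Par GCl DD0 SG SH RG AR DFam Mem)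
open Pool.Agent.ABS (LData oddZ)
open scoped ENNReal

/-- choice of `θ` -/
theorem wj_theta {c₀ C₁ C₂ θ₀ ε : ℝ} (hc₀ : 0 < c₀) (hC₁ : 0 < C₁) (hC₂ : 0 < C₂) (hθ₀ : 0 < θ₀)
    (hε : 0 < ε) : ∃ θ : ℝ, 0 < θ ∧ θ < θ₀ ∧ C₁ * Real.exp (-(c₀ / θ)) ≤ 1 ∧
      C₁ * (C₂ * (Real.exp (-(c₀ / (2 * θ))) + C₁ * Real.exp (-(c₀ / θ)))) ≤ ε := by
  have h1 : Tendsto (fun θ : ℝ => Real.exp (-(c₀ / θ))) (𝓝[>] 0) (𝓝 0) := by
    refine Real.tendsto_exp_atBot.comp (tendsto_neg_atTop_atBot.comp ?_)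
    have : Tendsto (fun θ : ℝ => c₀ * θ⁻¹) (𝓝[>] 0) atTop :=
      Tendsto.const_mul_atTop hc₀ tendsto_inv_nhdsGT_zero
    refine this.congr fun θ => ?_
    rw [div_eq_mul_inv]
  have h2 : Tendsto (fun θ : ℝ => Real.exp (-(c₀ / (2 * θ)))) (𝓝[>] 0) (𝓝 0) := by
    refine Real.tendsto_exp_atBot.comp (tendsto_neg_atTop_atBot.comp ?_)
    have : Tendsto (fun θ : ℝ => (c₀ / 2) * θ⁻¹) (𝓝[>] 0) atTop :=
      Tendsto.const_mul_atTop (by positivity) tendsto_inv_nhdsGT_zero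
    refine this.congr fun θ => ?_
    rw [← div_eq_mul_inv, div_div]
  have h3 : Tendsto (fun θ : ℝ => C₁ * Real.exp (-(c₀ / θ))) (𝓝[>] 0) (𝓝 0) := by
    simpa using h1.const_mul C₁
  have h4 : Tendsto (fun θ : ℝ => C₁ * (C₂ * (Real.exp (-(c₀ / (2 * θ))) +
      C₁ * Real.exp (-(c₀ / θ))))) (𝓝[>] 0) (𝓝 0) := by
    simpa using ((h2.add h3).const_mul C₂).const_mul C₁
  have e3 := h3.eventually (ge_mem_nhds (show (0 : ℝ) < 1 by norm_num))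
  have e4 := h4.eventually (ge_mem_nhds hε)
  have e5 : ∀ᶠ θ : ℝ in 𝓝[>] 0, θ < θ₀ :=
    (tendsto_nhdsWithin_of_tendsto_nhds tendsto_id).eventually (gt_mem_nhds hθ₀)
  have e6 : ∀ᶠ θ : ℝ in 𝓝[>] 0, 0 < θ := self_mem_nhdsWithin
  obtain ⟨θ, h⟩ := (e3.and (e4.and (e5.and e6))).exists
  exact ⟨θ, h.2.2.2, h.2.2.1, h.1, h.2.1⟩

/-- `C q^(n-δ) ≤ ε q^n` -/
theorem wj_pow {C δ ε : ℝ} (hδ : 0 < δ) (hε : 0 < ε) (n : ℝ) :
    ∃ q₀ : ℕ, ∀ q : ℕ, q₀ ≤ q → 1 ≤ q → C * (q : ℝ) ^ (n - δ) ≤ ε * (q : ℝ) ^ n := by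
  have h1 : Tendsto (fun q : ℕ => C * (q : ℝ) ^ (-δ)) atTop (𝓝 0) := by
    have := ((tendsto_rpow_neg_atTop hδ).comp tendsto_natCast_atTop_atTop).const_mul C
    simpa using this
  obtain ⟨q₀, h⟩ := eventually_atTop.1 (h1.eventually (ge_mem_nhds hε))
  refine ⟨q₀, fun q hq hq1 => ?_⟩
  have h2 := h q hq
  have hq0 : (0 : ℝ) < q := by exact_mod_cast hq1
  rw [sub_eq_add_neg, Real.rpow_add hq0]
  have h3 : (0 : ℝ) ≤ (q : ℝ) ^ n := by positivity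
  calc C * ((q : ℝ) ^ n * (q : ℝ) ^ (-δ)) = C * (q : ℝ) ^ (-δ) * (q : ℝ) ^ n := by ring
    _ ≤ ε * (q : ℝ) ^ n := mul_le_mul_of_nonneg_right h2 h3

/-- the number of members from the weights -/
theorem wj_card {β : Type} [Fintype β] (om : β → ℝ) (h0 : ∀ b, 0 ≤ om b) {B₁ B₂ : ℝ}
    (h1 : (((Finset.univ.filter fun b => om b < 1 / 2).card : ℕ) : ℝ) ≤ B₁)
    (h2 : ∑ b, om b ≤ B₂) : (Fintype.card β : ℝ) ≤ B₁ + 2 * B₂ := by
  have h3 : (Fintype.card β : ℝ) = ((Finset.univ.filter fun b => om b < 1 / 2).card : ℝ) +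
      ((Finset.univ.filter fun b => ¬ om b < 1 / 2).card : ℝ) := by
    rw [← Nat.cast_add, Finset.card_filter_add_card_filter_not, Finset.card_univ]
  have h4 : ((Finset.univ.filter fun b => ¬ om b < 1 / 2).card : ℝ) * (1 / 2) ≤ ∑ b, om b := by
    calc ((Finset.univ.filter fun b => ¬ om b < 1 / 2).card : ℝ) * (1 / 2)
        = ∑ b ∈ Finset.univ.filter (fun b => ¬ om b < 1 / 2), (1 / 2 : ℝ) := by
          rw [Finset.sum_const, nsmul_eq_mul]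
      _ ≤ ∑ b ∈ Finset.univ.filter (fun b => ¬ om b < 1 / 2), om b :=
          Finset.sum_le_sum fun b hb => not_lt.1 (Finset.mem_filter.1 hb).2
      _ ≤ ∑ b, om b := Finset.sum_le_sum_of_subset_of_nonneg (Finset.filter_subset _ _)
          fun b _ _ => h0 b
  linarith

theorem selberg_pr (n : ℕ) (hn : 2 ≤ n) (K : Set (Fin n → ℂ)) (hK : IsCompact K)
    (hK' : ∀ μ ∈ K, ∀ j, |(μ j).re| < 1 / 2) (ε a b : ℝ) (hε : 0 < ε) (hab : a < b) :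
    ∃ c : ℝ, 0 < c ∧ ∃ q₀ : ℕ, ∀ (q : ℕ) [NeZero q], q.Prime → q₀ ≤ q →
      (Bad n q K (Many c q a b)).Finite ∧
      ((Bad n q K (Many c q a b)).ncard : ℝ) ≤ ε * (q : ℝ) ^ n := by
  obtain ⟨p, C₁, δ, θ₀, hpT, hC₁, hδ, hθ₀, hθ₀1, hpA, hGC, hfam⟩ :=
    fam n hn K hK hK' (max |a| |b|) (le_max_of_le_left (abs_nonneg a))
  have hα : |a| ≤ p.T := by rw [hpT]; exact le_max_left _ _
  have hβ : |b| ≤ p.T := by rw [hpT]; exact le_max_right _ _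
  obtain ⟨C₂, hC₂, hcore⟩ := SGD.d_core p hab hα hβ
  obtain ⟨C₃, hC₃, hmem⟩ := member hn p hpA hab hα hβ
  obtain ⟨θ, hθ, hθ', hdV, hsm⟩ := wj_theta p.hc₀ hC₁ hC₂ hθ₀ (show 0 < ε / 8 by linarith)
  have hCρ : (0 : ℝ) ≤ (n : ℝ) ^ (2 / θ) := by positivity
  obtain ⟨C', hC', hcore'⟩ := hcore hθ (hθ'.le.trans hθ₀1) hCρ
  set A : ℝ := max 1 (8 * C₁ * C' / ε) with hAdef
  have hA1 : 1 ≤ A := le_max_left _ _
  have hA0 : 0 < A := lt_of_lt_of_le one_pos hA1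
  have hA2 : C₁ * (C' / A) ≤ ε / 8 := by
    have h1 : 8 * C₁ * C' / ε ≤ A := le_max_right _ _
    rw [div_le_iff₀ hε] at h1
    rw [← mul_div_assoc, div_le_iff₀ hA0]
    linarith
  obtain ⟨q₁, hcore''⟩ := hcore' A hA1
  obtain ⟨q₂, hfam'⟩ := hfam θ hθ hθ'
  obtain ⟨q₃, hpow⟩ := wj_pow (C := C₁) hδ (show 0 < ε / 4 by linarith) (n : ℝ)
  set x : ℝ := 3 / 8 * (b - a) / A with hxdef
  have hx : 0 < x := div_pos (mul_pos (by norm_num) (sub_pos.2 hab)) hA0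
  refine ⟨min x (x / C₃), lt_min hx (div_pos hx hC₃), max q₁ (max q₂ q₃), fun q _ hq hqq => ?_⟩
  have hq1 : q₁ ≤ q := (le_max_left _ _).trans hqq
  have hq2 : q₂ ≤ q := ((le_max_left _ _).trans (le_max_right _ _)).trans hqq
  have hq3 : q₃ ≤ q := ((le_max_right _ _).trans (le_max_right _ _)).trans hqq
  have hqpos : (0 : ℝ) < q := by exact_mod_cast hq.pos
  refine fin_count _ (by positivity) fun s hs => ?_
  have hs' : ∀ β : {lam // lam ∈ s}, ∃ μ ∈ K, Att n q μ β.1 ∧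
      ¬ ∃ Λ : ℂ → ℂ, IsLambda q μ β.1 Λ ∧ Many (min x (x / C₃)) q a b Λ := fun β => hs β.2
  choose μ hμK hAtt hno using hs'
  obtain ⟨om, S, QG, QH, W, V, hsmall, hD⟩ := hfam' q hq hq2 {lam // lam ∈ s} (fun β => β.1) μ
    Subtype.val_injective hμK hAtt
  have hm := fun β : {lam // lam ∈ s} => hmem q hq (hK' (μ β) (hμK β)) (hGC (μ β) (hμK β))
    (hAtt β)
  choose Λ X hIs hdens hXA henc hall using hm
  have hfew : ∀ β : {lam // lam ∈ s}, (oddZ (X β).Λ ∩ Set.Ioo a b).encard ≤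
      ⌊3 / 8 * (b - a) * Real.log q / A⌋₊ := by
    intro β
    rw [henc β]
    have h1 := few hq.two_le (lt_min hx (div_pos hx hC₃)) hC₃ hx.le (min_le_left _ _)
      (show min x (x / C₃) * C₃ ≤ x by
        calc min x (x / C₃) * C₃ ≤ x / C₃ * C₃ :=
              mul_le_mul_of_nonneg_right (min_le_right _ _) hC₃.le
          _ = x := div_mul_cancel₀ _ hC₃.ne') (hall β) (fun h => hno β ⟨Λ β, hIs β, h⟩)
    have e : x * Real.log q = 3 / 8 * (b - a) * Real.log q / A := by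
      rw [hxdef]
      ring
    rw [e] at h1
    exact h1
  have hsum := hcore'' q hq1 hdV hD (fun i hi => ⟨hD.lam_one i hi, hD.lam_le i hi, hD.al_one i hi,
    hD.al_le i hi, hD.S_one, hD.S_le, hGC (μ i) (hμK i), hdens i, hXA i⟩) Finset.univ
    (Finset.Subset.refl _) (fun i _ => hfew i)
  have hcard := wj_card om (fun β => hD.om_nonneg β (Finset.mem_univ _)) hsmall hsum
  rw [Fintype.card_coe] at hcard
  have hp := hpow q hq3 hq.one_lt.le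
  have hqn : (0 : ℝ) < (q : ℝ) ^ (n : ℝ) := by positivity
  have h5 : C₁ * (q : ℝ) ^ (n : ℝ) * (C₂ * (Real.exp (-(p.c₀ / (2 * θ))) +
      C₁ * Real.exp (-(p.c₀ / θ))) + C' / A) ≤ ε / 4 * (q : ℝ) ^ (n : ℝ) := by
    calc C₁ * (q : ℝ) ^ (n : ℝ) * (C₂ * (Real.exp (-(p.c₀ / (2 * θ))) +
        C₁ * Real.exp (-(p.c₀ / θ))) + C' / A) =
        (C₁ * (C₂ * (Real.exp (-(p.c₀ / (2 * θ))) + C₁ * Real.exp (-(p.c₀ / θ)))) +
          C₁ * (C' / A)) * (q : ℝ) ^ (n : ℝ) := by ring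
      _ ≤ ε / 4 * (q : ℝ) ^ (n : ℝ) := by
          refine mul_le_mul_of_nonneg_right ?_ hqn.le
          linarith
  have h6 : (s.card : ℝ) ≤ ε * (q : ℝ) ^ (n : ℝ) := by
    have h7 : 0 < ε * (q : ℝ) ^ (n : ℝ) := mul_pos hε hqn
    linarith
  rwa [Real.rpow_natCast] at h6

alias selberg := selberg_pr

end Pool.Agent.SGW
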