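import Pool.Agent.Lib_helper45.SGDF.All
import Pool.Agent.Lib_helper24.SGAF.Fin
import Pool.Agent.Lib_helper84.SGCF.All
import Pool.Agent.Lib_helper84.SGN.DefsG
import Pool.Agent.Lib_helper92.SGWF.WG
import Pool.Agent.Lib_helper92.SGWF.WH2G
import Pool.Agent.Lib_helper92.SGWF.WI

set_option autoImplicit false

namespace Pool.Agent.SGW

open Complex MeasureTheory Filter Topology
open Pool.Agent.SGN (Att IsEig IsLambda oddCrit allZer Many Bad Model al vt wtt vr wr Smooth Rough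
  gmu D0 invc sqr Gaps)
open Pool.Agent.SGD (Par GCl DD0 SG SH RG AR DFam Mem)
open Pool.Agent.ABS (LData oddZ)
open scoped ENNReal

/-- choice of `θ` -/
theorem wj_theta {c₀ C₁ C₂ θ₀ ε : ℝ} (hc₀ : 0 < c₀) (hθ₀ : 0 < θ₀)
    (hε : 0 < ε) : ∃ θ : ℝ, 0 < θ ∧ θ < θ₀ ∧ C₁ * Real.exp (-(c₀ / θ)) ≤ 1 ∧
      C₁ * (C₂ * (Real.exp (-(c₀ / (2 * θ))) + C₁ * Real.exp (-(c₀ / θ)))) ≤ ε := by
  have h1 : Tendsto (fun θ : ℝ => Real.exp (-(c₀ / θ))) (𝓝[>] 0) (𝓝 0) := by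
    refine Real.tendsto_exp_atBot.comp (tendsto_neg_atTop_atBot.comp ?_)
    have : Tendsto (fun θ : ℝ => c₀ * θ⁻¹) (𝓝[>] 0) atTop :=
      Tendsto.const_mul_atTop hc₀ tendsto_inv_nhdsGT_zero
    refine this.congr fun θ => ?_
    rw [div_eq_mul_inv]
  have h2 : Tendsto (fun θ : ℝ => Real.exp (-(c₀ / (2 * θ)))) (𝓝[>] 0) (𝓝 0) := by
    refine Real.tendsto_exp_atBot.comp (tendsto_neg_atTop_atBot.comp ?_)
    have : Tendsto (fun θ : ℝ => (c₀ / 2) * θ⁻¹) (𝓝[>] 0) atTop :=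
      Tendsto.const_mul_atTop (by positivity) tendsto_inv_nhdsGT_zero
    refine this.congr fun θ => ?_
    rw [← div_eq_mul_inv, div_div]
  have h3 : Tendsto (fun θ : ℝ => C₁ * Real.exp (-(c₀ / θ))) (𝓝[>] 0) (𝓝 0) := by
    simpa using h1.const_mul C₁
  have h4 : Tendsto (fun θ : ℝ => C₁ * (C₂ * (Real.exp (-(c₀ / (2 * θ))) +
      C₁ * Real.exp (-(c₀ / θ))))) (𝓝[>] 0) (𝓝 0) := by
    simpa using ((h2.add h3).const_mul C₂).const_mul C₁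
  have e3 := h3.eventually (ge_mem_nhds (show (0 : ℝ) < 1 by norm_num))
  have e4 := h4.eventually (ge_mem_nhds hε)
  have e5 : ∀ᶠ θ : ℝ in 𝓝[>] 0, θ < θ₀ :=
    (tendsto_nhdsWithin_of_tendsto_nhds tendsto_id).eventually (gt_mem_nhds hθ₀)
  have e6 : ∀ᶠ θ : ℝ in 𝓝[>] 0, 0 < θ := self_mem_nhdsWithin
  obtain ⟨θ, h⟩ := (e3.and (e4.and (e5.and e6))).exists
  exact ⟨θ, h.2.2.2, h.2.2.1, h.1, h.2.1⟩

/-- `C q^(n-δ) ≤ ε q^n` -/
theorem wj_pow {C δ ε : ℝ} (hδ : 0 < δ) (hε : 0 < ε) (n : ℝ) :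
    ∃ q₀ : ℕ, ∀ q : ℕ, q₀ ≤ q → 1 ≤ q → C * (q : ℝ) ^ (n - δ) ≤ ε * (q : ℝ) ^ n := by
  have h1 : Tendsto (fun q : ℕ => C * (q : ℝ) ^ (-δ)) atTop (𝓝 0) := by
    have := ((tendsto_rpow_neg_atTop hδ).comp tendsto_natCast_atTop_atTop).const_mul C
    simpa using this
  obtain ⟨q₀, h⟩ := eventually_atTop.1 (h1.eventually (ge_mem_nhds hε))
  refine ⟨q₀, fun q hq hq1 => ?_⟩
  have h2 := h q hq
  have hq0 : (0 : ℝ) < q := by exact_mod_cast hq1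
  rw [sub_eq_add_neg, Real.rpow_add hq0]
  have h3 : (0 : ℝ) ≤ (q : ℝ) ^ n := by positivity
  calc C * ((q : ℝ) ^ n * (q : ℝ) ^ (-δ)) = C * (q : ℝ) ^ (-δ) * (q : ℝ) ^ n := by ring
    _ ≤ ε * (q : ℝ) ^ n := mul_le_mul_of_nonneg_right h2 h3

/-- the number of members from the weights -/
theorem wj_card {β : Type} [Fintype β] (om : β → ℝ) (h0 : ∀ b, 0 ≤ om b) {B₁ B₂ : ℝ}
    (h1 : (((Finset.univ.filter fun b => om b < 1 / 2).card : ℕ) : ℝ) ≤ B₁)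
    (h2 : ∑ b, om b ≤ B₂) : (Fintype.card β : ℝ) ≤ B₁ + 2 * B₂ := by
  have h3 : (Fintype.card β : ℝ) = ((Finset.univ.filter fun b => om b < 1 / 2).card : ℝ) +
      ((Finset.univ.filter fun b => ¬ om b < 1 / 2).card : ℝ) := by
    rw [← Nat.cast_add, Finset.card_filter_add_card_filter_not, Finset.card_univ]
  have h4 : ((Finset.univ.filter fun b => ¬ om b < 1 / 2).card : ℝ) * (1 / 2) ≤ ∑ b, om b := by
    calc ((Finset.univ.filter fun b => ¬ om b < 1 / 2).card : ℝ) * (1 / 2)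
        = ∑ b ∈ Finset.univ.filter (fun b => ¬ om b < 1 / 2), (1 / 2 : ℝ) := by
          rw [Finset.sum_const, nsmul_eq_mul]
      _ ≤ ∑ b ∈ Finset.univ.filter (fun b => ¬ om b < 1 / 2), om b :=
          Finset.sum_le_sum fun b hb => not_lt.1 (Finset.mem_filter.1 hb).2
      _ ≤ ∑ b, om b := Finset.sum_le_sum_of_subset_of_nonneg (Finset.filter_subset _ _)
          fun b _ _ => h0 b
  linarith

/-- failure of `Gaps` in real numbers -/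
theorem wj_gap {A ε a b : ℝ} {q : ℕ} {Λ Λ' : ℂ → ℂ}
    (hZ : ∀ t : ℝ, t ∈ oddZ Λ' ↔ Odd (analyticOrderNatAt Λ (1 / 2 + t * I)))
    (h : ¬ Gaps A ε q a b Λ) :
    ε ≤ volume.real (SGD.GapSet Λ' a b (A / Real.log q)) := by
  have e : SGD.GapSet Λ' a b (A / Real.log q) =
      {t : ℝ | a < t ∧ t < b ∧ ∀ s : ℝ, t < s → s < t + A / Real.log q →
        ¬ Odd (analyticOrderNatAt Λ (1 / 2 + s * I))} := by
    ext t
    simp only [SGD.GapSet, Set.mem_ofPred_eq, hZ]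
  rw [e]
  unfold Gaps at h
  rw [not_le] at h
  have hfin : volume {t : ℝ | a < t ∧ t < b ∧ ∀ s : ℝ, t < s → s < t + A / Real.log q →
      ¬ Odd (analyticOrderNatAt Λ (1 / 2 + s * I))} ≠ ⊤ := by
    refine ne_top_of_le_ne_top (b := volume (Set.Ioo a b)) ?_ (measure_mono fun t ht =>
      ⟨ht.1, ht.2.1⟩)
    rw [Real.volume_Ioo]
    exact ENNReal.ofReal_ne_top
  exact (ENNReal.ofReal_le_iff_le_toReal hfin).1 h.le

theorem selbergG_pr (n : ℕ) (hn : 2 ≤ n) (K : Set (Fin n → ℂ)) (hK : IsCompact K)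
    (hK' : ∀ μ ∈ K, ∀ j, |(μ j).re| < 1 / 2) (ε a b : ℝ) (hε : 0 < ε) (hab : a < b) :
    ∃ A c : ℝ, 0 < A ∧ 0 < c ∧ ∃ q₀ : ℕ, ∀ (q : ℕ) [NeZero q], q.Prime → q₀ ≤ q →
      (Bad n q K fun Λ => Many c q a b Λ ∧ Gaps A ε q a b Λ).Finite ∧
      ((Bad n q K fun Λ => Many c q a b Λ ∧ Gaps A ε q a b Λ).ncard : ℝ) ≤ ε * (q : ℝ) ^ n := by
  classical
  obtain ⟨p, C₁, δ, θ₀, hpT, hC₁, hδ, hθ₀, hθ₀1, hpA, hGC, hfam⟩ :=
    fam n hn K hK hK' (max |a| |b|) (le_max_of_le_left (abs_nonneg a))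
  have hα : |a| ≤ p.T := by rw [hpT]; exact le_max_left _ _
  have hβ : |b| ≤ p.T := by rw [hpT]; exact le_max_right _ _
  obtain ⟨C₂, hC₂, hcore⟩ := SGD.d_core p hab hα hβ
  obtain ⟨C₂', hC₂', hgap⟩ := SGD.d_core_gaps p hα hβ
  obtain ⟨C₃, hC₃, hmem⟩ := memberG hn p hpA hab hα hβ
  set ε₁ : ℝ := min (ε / 16) (ε * ε / 16) with hε₁def
  have hε₁ : 0 < ε₁ := lt_min (by positivity) (by positivity)
  have hε₁a : ε₁ ≤ ε / 16 := min_le_left _ _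
  have hε₁b : ε₁ ≤ ε * ε / 16 := min_le_right _ _
  obtain ⟨θ, hθ, hθ', hdV, hsm⟩ := wj_theta (C₁ := C₁) (C₂ := max C₂ C₂') p.hc₀ hθ₀ hε₁
  have hCρ : (0 : ℝ) ≤ (n : ℝ) ^ (2 / θ) := by positivity
  obtain ⟨C', hC', hcore'⟩ := hcore hθ (hθ'.le.trans hθ₀1) hCρ
  obtain ⟨C'', hC'', hgap'⟩ := hgap hθ (hθ'.le.trans hθ₀1) hCρ
  set Cm : ℝ := max C' C'' with hCm
  have hCm0 : 0 < Cm := lt_max_of_lt_left hC'
  set A : ℝ := max 1 (C₁ * Cm / ε₁) with hAdef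
  have hA1 : 1 ≤ A := le_max_left _ _
  have hA0 : 0 < A := lt_of_lt_of_le one_pos hA1
  have hA2 : C₁ * (Cm / A) ≤ ε₁ := by
    have h1 : C₁ * Cm / ε₁ ≤ A := le_max_right _ _
    rw [div_le_iff₀ hε₁] at h1
    rw [← mul_div_assoc, div_le_iff₀ hA0]
    linarith
  obtain ⟨q₁, hcore''⟩ := hcore' A hA1
  obtain ⟨q₄, hgap''⟩ := hgap' A hA1
  obtain ⟨q₂, hfam'⟩ := hfam θ hθ hθ'
  obtain ⟨q₃, hpow⟩ := wj_pow (C := C₁) hδ (show 0 < ε / 4 by linarith) (n : ℝ)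
  set x : ℝ := 3 / 8 * (b - a) / A with hxdef
  have hx : 0 < x := div_pos (mul_pos (by norm_num) (sub_pos.2 hab)) hA0
  set c : ℝ := min x (x / C₃) with hcdef
  have hc : 0 < c := lt_min hx (div_pos hx hC₃)
  refine ⟨A, c, hA0, hc, max q₁ (max q₂ (max q₃ q₄)), fun q _ hq hqq => ?_⟩
  have hq1 : q₁ ≤ q := (le_max_left _ _).trans hqq
  have hq2 : q₂ ≤ q := ((le_max_left _ _).trans (le_max_right _ _)).trans hqq
  have hq3 : q₃ ≤ q :=
    (((le_max_left _ _).trans (le_max_right _ _)).trans (le_max_right _ _)).trans hqq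
  have hq4 : q₄ ≤ q :=
    (((le_max_right _ _).trans (le_max_right _ _)).trans (le_max_right _ _)).trans hqq
  have hqpos : (0 : ℝ) < q := by exact_mod_cast hq.pos
  refine fin_count _ (by positivity) fun s hs => ?_
  have hs' : ∀ β : {lam // lam ∈ s}, ∃ μ ∈ K, Att n q μ β.1 ∧
      ¬ ∃ Λ : ℂ → ℂ, IsLambda q μ β.1 Λ ∧ (Many c q a b Λ ∧ Gaps A ε q a b Λ) := fun β => hs β.2
  choose μ hμK hAtt hno using hs'
  obtain ⟨om, S, QG, QH, W, V, hsmall, hD⟩ := hfam' q hq hq2 {lam // lam ∈ s} (fun β => β.1) μ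
    Subtype.val_injective hμK hAtt
  have hm := fun β : {lam // lam ∈ s} => hmem q hq (hK' (μ β) (hμK β)) (hGC (μ β) (hμK β))
    (hAtt β)
  choose Λ X hIs hdens hXA hodd hall using hm
  have h0 : ∀ β : {lam // lam ∈ s}, 0 ≤ om β := fun β => hD.om_nonneg β (Finset.mem_univ _)
  have hMem : ∀ i ∈ (Finset.univ : Finset {lam // lam ∈ s}),
      Mem p q S i.1 (al i.1) (gmu (μ i)) (X i) := fun i hi =>
    ⟨hD.lam_one i hi, hD.lam_le i hi, hD.al_one i hi,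
      hD.al_le i hi, hD.S_one, hD.S_le, hGC (μ i) (hμK i), hdens i, hXA i⟩
  set s₁ : Finset {lam // lam ∈ s} := Finset.univ.filter fun β => ¬ Many c q a b (Λ β) with hs₁
  set s₂ : Finset {lam // lam ∈ s} := Finset.univ.filter fun β => ¬ Gaps A ε q a b (Λ β) with hs₂
  have hcover : (Finset.univ : Finset {lam // lam ∈ s}) ⊆ s₁ ∪ s₂ := by
    intro β _
    rw [Finset.mem_union, hs₁, hs₂, Finset.mem_filter, Finset.mem_filter]
    by_contra hcon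
    push Not at hcon
    exact hno β ⟨Λ β, hIs β, hcon.1 (Finset.mem_univ _), hcon.2 (Finset.mem_univ _)⟩
  have hfew : ∀ β ∈ s₁, (oddZ (X β).Λ ∩ Set.Ioo a b).encard ≤
      ⌊3 / 8 * (b - a) * Real.log q / A⌋₊ := by
    intro β hβ₁
    have h2 : oddZ (X β).Λ ∩ Set.Ioo a b =
        {t : ℝ | a < t ∧ t < b ∧ Odd (analyticOrderNatAt (Λ β) (1 / 2 + t * I))} := by
      ext t
      simp only [Set.mem_inter_iff, Set.mem_Ioo, Set.mem_ofPred_eq, hodd β t]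
      tauto
    rw [h2]
    have h1 := few hq.two_le hc hC₃ hx.le (min_le_left _ _)
      (show c * C₃ ≤ x by
        calc c * C₃ ≤ x / C₃ * C₃ :=
              mul_le_mul_of_nonneg_right (min_le_right _ _) hC₃.le
          _ = x := div_mul_cancel₀ _ hC₃.ne') (hall β) (Finset.mem_filter.1 hβ₁).2
    have e : x * Real.log q = 3 / 8 * (b - a) * Real.log q / A := by
      rw [hxdef]
      ring
    rw [e] at h1
    exact h1
  have hqn : (0 : ℝ) < (q : ℝ) ^ (n : ℝ) := by positivity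
  have hexp0 : 0 ≤ Real.exp (-(p.c₀ / (2 * θ))) + C₁ * Real.exp (-(p.c₀ / θ)) := by positivity
  have hbound : ∀ D D' : ℝ, D ≤ max C₂ C₂' → D' ≤ Cm →
      C₁ * (q : ℝ) ^ (n : ℝ) * (D * (Real.exp (-(p.c₀ / (2 * θ))) +
      C₁ * Real.exp (-(p.c₀ / θ))) + D' / A) ≤ 2 * ε₁ * (q : ℝ) ^ (n : ℝ) := by
    intro D D' hD1 hD2
    have h1 : D * (Real.exp (-(p.c₀ / (2 * θ))) + C₁ * Real.exp (-(p.c₀ / θ))) ≤
        max C₂ C₂' * (Real.exp (-(p.c₀ / (2 * θ))) + C₁ * Real.exp (-(p.c₀ / θ))) :=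
      mul_le_mul_of_nonneg_right hD1 hexp0
    have h2 : D' / A ≤ Cm / A := div_le_div_of_nonneg_right hD2 hA0.le
    calc C₁ * (q : ℝ) ^ (n : ℝ) * (D * (Real.exp (-(p.c₀ / (2 * θ))) +
        C₁ * Real.exp (-(p.c₀ / θ))) + D' / A)
        ≤ C₁ * (q : ℝ) ^ (n : ℝ) * (max C₂ C₂' * (Real.exp (-(p.c₀ / (2 * θ))) +
        C₁ * Real.exp (-(p.c₀ / θ))) + Cm / A) :=
          mul_le_mul_of_nonneg_left (add_le_add h1 h2) (by positivity)
      _ = (C₁ * (max C₂ C₂' * (Real.exp (-(p.c₀ / (2 * θ))) + C₁ * Real.exp (-(p.c₀ / θ)))) +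
          C₁ * (Cm / A)) * (q : ℝ) ^ (n : ℝ) := by ring
      _ ≤ 2 * ε₁ * (q : ℝ) ^ (n : ℝ) := by
          refine mul_le_mul_of_nonneg_right ?_ hqn.le
          linarith
  have hsum₁ : ∑ i ∈ s₁, om i ≤ 2 * ε₁ * (q : ℝ) ^ (n : ℝ) :=
    (hcore'' q hq1 hdV hD hMem s₁ (Finset.subset_univ _) hfew).trans
      (hbound C₂ C' (le_max_left _ _) (le_max_left _ _))
  have hsum₂ : ε * ∑ i ∈ s₂, om i ≤ 2 * ε₁ * (q : ℝ) ^ (n : ℝ) := by
    have h1 := (hgap'' q hq4 hdV hD hMem).trans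
      (hbound C₂' C'' (le_max_right _ _) (le_max_right _ _))
    refine le_trans ?_ h1
    rw [Finset.mul_sum]
    refine le_trans (Finset.sum_le_sum fun i hi => ?_)
      (Finset.sum_le_sum_of_subset_of_nonneg (Finset.subset_univ s₂)
        fun i _ _ => mul_nonneg (h0 i) measureReal_nonneg)
    have h2 := wj_gap (Λ' := (X i).Λ) (hodd i) (Finset.mem_filter.1 hi).2
    rw [mul_comm]
    exact mul_le_mul_of_nonneg_left h2 (h0 i)
  have hsum : ∑ i, om i ≤ ε / 4 * (q : ℝ) ^ (n : ℝ) := by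
    have h1 : ∑ i, om i ≤ ∑ i ∈ s₁, om i + ∑ i ∈ s₂, om i := by
      refine (Finset.sum_le_sum_of_subset_of_nonneg hcover fun i _ _ => h0 i).trans ?_
      rw [← Finset.sum_union_inter]
      exact le_add_of_nonneg_right (Finset.sum_nonneg fun i _ => h0 i)
    have h2 : ∑ i ∈ s₂, om i ≤ ε / 8 * (q : ℝ) ^ (n : ℝ) := by
      have h3 : ε * ∑ i ∈ s₂, om i ≤ ε * (ε / 8 * (q : ℝ) ^ (n : ℝ)) := by
        refine hsum₂.trans ?_
        calc 2 * ε₁ * (q : ℝ) ^ (n : ℝ) ≤ 2 * (ε * ε / 16) * (q : ℝ) ^ (n : ℝ) := by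
              refine mul_le_mul_of_nonneg_right ?_ hqn.le
              linarith
          _ = ε * (ε / 8 * (q : ℝ) ^ (n : ℝ)) := by ring
      exact le_of_mul_le_mul_left h3 hε
    have h4 : ∑ i ∈ s₁, om i ≤ ε / 8 * (q : ℝ) ^ (n : ℝ) := by
      refine hsum₁.trans (mul_le_mul_of_nonneg_right ?_ hqn.le)
      linarith
    calc ∑ i, om i ≤ ε / 8 * (q : ℝ) ^ (n : ℝ) + ε / 8 * (q : ℝ) ^ (n : ℝ) :=
          h1.trans (add_le_add h4 h2)
      _ = ε / 4 * (q : ℝ) ^ (n : ℝ) := by ring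
  have hcard := wj_card om h0 hsmall hsum
  rw [Fintype.card_coe] at hcard
  have hp := hpow q hq3 hq.one_lt.le
  have h6 : (s.card : ℝ) ≤ ε * (q : ℝ) ^ (n : ℝ) := by
    have h7 : 0 < ε * (q : ℝ) ^ (n : ℝ) := mul_pos hε hqn
    linarith
  rwa [Real.rpow_natCast] at h6

alias selbergG := selbergG_pr

end Pool.Agent.SGW
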